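import Mathlib

set_option autoImplicit false

/-!
# The binomial coefficients of `n + 1 / 2`
-/

namespace Pool.Agent.U133.HP

open Finset PowerSeries

lemma choose_rec {K : Type*} [Field K] [CharZero K] (a : K) (k : ℕ) :
    ((k : K) + 1) * Ring.choose a (k + 1) = (a - k) * Ring.choose a k := by
  have h := Ring.choose_smul_choose a (n := k + 1) (k := k) (by omega)
  rw [show k + 1 - k = 1 by omega, Ring.choose_one_right, Nat.choose_succ_self_right,
    nsmul_eq_mul] at h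
  push_cast at h
  rw [h, mul_comm]

/-- the coefficients -/
noncomputable def cc (n k : ℕ) : ℚ := Ring.choose ((n : ℚ) + 1 / 2) k

lemma cc_zero (n : ℕ) : cc n 0 = 1 := by rw [cc, Ring.choose_zero_right]

lemma cc_succ (n k : ℕ) : ((k : ℚ) + 1) * cc n (k + 1) = ((n : ℚ) + 1 / 2 - k) * cc n k := by
  rw [cc, cc, choose_rec]

lemma cc_C (n k : ℕ) : ((cc n k : ℚ) : ℂ) = Ring.choose ((n : ℂ) + 1 / 2) k := by
  rw [cc]
  have h := Ring.map_choose (algebraMap ℚ ℂ) ((n : ℚ) + 1 / 2) k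
  simp only [eq_ratCast] at h
  rw [h]
  push_cast
  rfl

lemma cc_ne (n k : ℕ) : cc n k ≠ 0 := by
  induction k with
  | zero => rw [cc_zero]; norm_num
  | succ k ih =>
    intro h0
    have h := cc_succ n k
    rw [h0, mul_zero] at h
    rcases mul_eq_zero.mp h.symm with h1 | h1
    · have h2 : (2 * n + 1 : ℚ) = 2 * k := by linarith
      have h3 : 2 * n + 1 = 2 * k := by exact_mod_cast h2
      omega
    · exact ih h1

lemma int_neg_half (k : ℕ) : (4 : ℚ) ^ k * Ring.choose (-(1 / 2) : ℚ) k =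
    (-1) ^ k * (Nat.centralBinom k : ℚ) := by
  induction k with
  | zero => simp [Ring.choose_zero_right]
  | succ k ih =>
    have h1 := choose_rec (-(1 / 2) : ℚ) k
    have h2 : ((k : ℚ) + 1) * (Nat.centralBinom (k + 1) : ℚ) =
        2 * (2 * k + 1) * (Nat.centralBinom k : ℚ) := by
      have := Nat.succ_mul_centralBinom_succ k
      exact_mod_cast this
    have hk : ((k : ℚ) + 1) ≠ 0 := by positivity
    apply mul_left_cancel₀ hk
    calc ((k : ℚ) + 1) * (4 ^ (k + 1) * Ring.choose (-(1 / 2) : ℚ) (k + 1))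
        = 4 ^ (k + 1) * (((k : ℚ) + 1) * Ring.choose (-(1 / 2) : ℚ) (k + 1)) := by ring
      _ = (-2) * (2 * k + 1) * (4 ^ k * Ring.choose (-(1 / 2) : ℚ) k) := by
          rw [h1]; ring
      _ = _ := by
          rw [ih]
          linear_combination (-1) ^ (k + 1) * (-1 : ℚ) * h2

lemma int_half (k : ℕ) : ∃ z : ℤ, (z : ℚ) = 4 ^ k * Ring.choose (1 / 2 : ℚ) k := by
  rcases k with _ | k
  · exact ⟨1, by simp [Ring.choose_zero_right]⟩
  · have h := Ring.choose_succ_succ (-(1 / 2) : ℚ) k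
    rw [show (-(1 / 2) : ℚ) + 1 = 1 / 2 by norm_num] at h
    refine ⟨4 * ((-1) ^ k * (Nat.centralBinom k : ℤ)) + (-1) ^ (k + 1) *
      (Nat.centralBinom (k + 1) : ℤ), ?_⟩
    have e1 := int_neg_half k
    have e2 := int_neg_half (k + 1)
    rw [h]
    push_cast
    linear_combination (-4 : ℚ) * e1 - e2

lemma cc_eq (n k : ℕ) : cc n k = ∑ ij ∈ antidiagonal k, (n.choose ij.1 : ℚ) *
    Ring.choose (1 / 2 : ℚ) ij.2 := by
  rw [cc, Ring.add_choose_eq k (Commute.all _ _)]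
  refine sum_congr rfl fun ij _ => ?_
  rw [Ring.choose_natCast]

/-- integrality -/
lemma cc_int (n k : ℕ) : ∃ z : ℤ, (z : ℚ) = 4 ^ k * cc n k := by
  choose w hw using int_half
  refine ⟨∑ ij ∈ antidiagonal k, 4 ^ ij.1 * (n.choose ij.1 : ℤ) * w ij.2, ?_⟩
  rw [cc_eq, mul_sum]
  push_cast
  refine sum_congr rfl fun ij hij => ?_
  rw [hw, ← mem_antidiagonal.mp hij, pow_add]
  ring

lemma half_le (k : ℕ) : |Ring.choose (1 / 2 : ℚ) k| ≤ 1 := by
  induction k with
  | zero => simp [Ring.choose_zero_right]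
  | succ k ih =>
    have h := choose_rec (1 / 2 : ℚ) k
    have hk : (0 : ℚ) < (k : ℚ) + 1 := by positivity
    have h2 : ((k : ℚ) + 1) * |Ring.choose (1 / 2 : ℚ) (k + 1)| =
        |1 / 2 - (k : ℚ)| * |Ring.choose (1 / 2 : ℚ) k| := by
      rw [← abs_mul, ← h, abs_mul, abs_of_pos hk]
    have h3 : |1 / 2 - (k : ℚ)| ≤ (k : ℚ) + 1 := by
      rw [abs_le]
      have : (0 : ℚ) ≤ k := Nat.cast_nonneg k
      constructor <;> linarith
    have h4 : |1 / 2 - (k : ℚ)| * |Ring.choose (1 / 2 : ℚ) k| ≤ ((k : ℚ) + 1) * 1 :=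
      mul_le_mul h3 ih (abs_nonneg _) hk.le
    rw [← h2] at h4
    exact le_of_mul_le_mul_left h4 hk

lemma cc_le (n k : ℕ) : |cc n k| ≤ 2 ^ n := by
  rw [cc_eq]
  refine (abs_sum_le_sum_abs _ _).trans ?_
  calc ∑ ij ∈ antidiagonal k, |(n.choose ij.1 : ℚ) * Ring.choose (1 / 2 : ℚ) ij.2|
      ≤ ∑ ij ∈ antidiagonal k, (n.choose ij.1 : ℚ) := by
        refine sum_le_sum fun ij _ => ?_
        rw [abs_mul, abs_of_nonneg (Nat.cast_nonneg _)]
        exact mul_le_of_le_one_right (Nat.cast_nonneg _) (half_le _)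
    _ = ∑ i ∈ range (k + 1), (n.choose i : ℚ) := by
        rw [Nat.antidiagonal_eq_map, sum_map]
        rfl
    _ ≤ ∑ i ∈ range (max (k + 1) (n + 1)), (n.choose i : ℚ) :=
        sum_le_sum_of_subset_of_nonneg (range_subset_range.mpr (le_max_left _ _))
          fun _ _ _ => Nat.cast_nonneg _
    _ = ∑ i ∈ range (n + 1), (n.choose i : ℚ) := by
        symm
        refine sum_subset (range_subset_range.mpr (le_max_right _ _)) fun i _ hi => ?_
        rw [mem_range, not_lt] at hi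
        rw [Nat.choose_eq_zero_of_lt (by omega)]
        simp
    _ = 2 ^ n := by
        have := Nat.sum_range_choose n
        exact_mod_cast this

/-- the series `w ^ n (1 - X / w) ^ (n + 1 / 2)` -/
noncomputable def Ps (n : ℕ) (w : ℂ) : ℂ⟦X⟧ :=
  PowerSeries.mk fun j => (cc n j : ℂ) * (-1) ^ j * w ^ n * w⁻¹ ^ j

lemma coeff_Ps (n : ℕ) (w : ℂ) (j : ℕ) :
    coeff j (Ps n w) = (cc n j : ℂ) * (-1) ^ j * w ^ n * w⁻¹ ^ j := by rw [Ps, coeff_mk]

lemma Ps_ode (n : ℕ) {w : ℂ} (hw : w ≠ 0) :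
    (C w - X) * d⁄dX ℂ (Ps n w) = -C ((n : ℂ) + 1 / 2) * Ps n w := by
  have hc : ∀ j : ℕ, (((j : ℂ) + 1) * (cc n (j + 1) : ℂ)) = ((n : ℂ) + 1 / 2 - j) * cc n j := by
    intro j
    have := congrArg (fun q : ℚ => (q : ℂ)) (cc_succ n j)
    push_cast at this
    exact this
  ext j
  rw [sub_mul, map_sub, coeff_C_mul, neg_mul, map_neg, coeff_C_mul]
  rcases j with _ | j
  · rw [coeff_zero_X_mul, coeff_derivative, coeff_Ps, coeff_Ps]
    have h := hc 0
    push_cast at h ⊢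
    have hw1 : w * w⁻¹ = 1 := mul_inv_cancel₀ hw
    linear_combination (-(w ^ n)) * h - (((cc n (0 + 1) : ℚ) : ℂ)) * w ^ n * hw1
  · rw [coeff_succ_X_mul, coeff_derivative, coeff_derivative, coeff_Ps, coeff_Ps]
    have h := hc (j + 1)
    push_cast at h ⊢
    have e1 : w * (((cc n (j + 1 + 1) : ℚ) : ℂ) * (-1) ^ (j + 1 + 1) * w ^ n * w⁻¹ ^ (j + 1 + 1) *
        ((j : ℂ) + 1 + 1)) = (((j : ℂ) + 1 + 1) * ((cc n (j + 1 + 1) : ℚ) : ℂ)) *
          ((-1) ^ (j + 1 + 1) * w ^ n * w⁻¹ ^ (j + 1)) := by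
      rw [pow_succ w⁻¹ (j + 1)]
      field_simp
    rw [e1, h]
    ring

end Pool.Agent.U133.HP
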