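import Pool.Agent.U133.HP.Ratl

set_option autoImplicit false

/-!
# Constants
-/

namespace Pool.Agent.U133.HP

open Finset


open Pool.Agent.U133.GP (Rt mem_Rt card_Rt prod_Rt deriv_Rt)

/-- polynomially bounded in `2 H` -/
def PB (φ : ℕ → ℝ) : Prop := ∃ K : ℕ, ∀ H : ℕ, 1 ≤ H → 0 ≤ φ H ∧ φ H ≤ (2 * (H : ℝ)) ^ K

lemma PB.mul {φ ψ : ℕ → ℝ} (h : PB φ) (h' : PB ψ) : PB (fun H => φ H * ψ H) := by
  obtain ⟨K, hK⟩ := h
  obtain ⟨K', hK'⟩ := h'
  refine ⟨K + K', fun H hH => ⟨mul_nonneg (hK H hH).1 (hK' H hH).1, ?_⟩⟩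
  rw [pow_add]
  exact mul_le_mul (hK H hH).2 (hK' H hH).2 (hK' H hH).1 (by positivity)

lemma PB.pow {φ : ℕ → ℝ} (h : PB φ) (m : ℕ) : PB (fun H => φ H ^ m) := by
  obtain ⟨K, hK⟩ := h
  refine ⟨K * m, fun H hH => ⟨pow_nonneg (hK H hH).1 m, ?_⟩⟩
  rw [pow_mul]
  exact pow_le_pow_left₀ (hK H hH).1 (hK H hH).2 m

lemma PB.const (c : ℕ) : PB (fun _ => (c : ℝ)) := by
  refine ⟨c, fun H hH => ⟨Nat.cast_nonneg c, ?_⟩⟩
  have hH1 : (1 : ℝ) ≤ H := by exact_mod_cast hH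
  have h2 : (c : ℝ) ≤ (2 : ℝ) ^ c := by
    have := (Nat.lt_two_pow_self (n := c)).le
    exact_mod_cast this
  exact h2.trans (pow_le_pow_left₀ (by norm_num) (by linarith) _)

lemma PB.id : PB (fun H => (H : ℝ)) := by
  refine ⟨1, fun H hH => ⟨Nat.cast_nonneg H, ?_⟩⟩
  have : (0 : ℝ) ≤ H := Nat.cast_nonneg H
  rw [pow_one]; linarith

lemma PB.add {φ ψ : ℕ → ℝ} (h : PB φ) (h' : PB ψ) : PB (fun H => φ H + ψ H) := by
  obtain ⟨K, hK⟩ := h
  obtain ⟨K', hK'⟩ := h'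
  refine ⟨K + K' + 1, fun H hH => ⟨add_nonneg (hK H hH).1 (hK' H hH).1, ?_⟩⟩
  have hH1 : (1 : ℝ) ≤ H := by exact_mod_cast hH
  have h1 : (1 : ℝ) ≤ 2 * H := by linarith
  have h2 : φ H ≤ (2 * (H : ℝ)) ^ (K + K') :=
    (hK H hH).2.trans (pow_le_pow_right₀ h1 (by omega))
  have h3 : ψ H ≤ (2 * (H : ℝ)) ^ (K + K') :=
    (hK' H hH).2.trans (pow_le_pow_right₀ h1 (by omega))
  rw [pow_succ]
  have : 0 ≤ (2 * (H : ℝ)) ^ (K + K') := by positivity
  nlinarith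

variable {f : Polynomial ℤ}

/-- the resultant as a product -/
lemma res_prod (hs : (Polynomial.map (Int.castRingHom ℚ) f).Separable) :
    ((Polynomial.resultant f (Polynomial.derivative f) f.natDegree (f.natDegree - 1) : ℤ) : ℂ) =
      (f.leadingCoeff : ℂ) ^ (f.natDegree - 1) * ∏ θ ∈ Rt f,
        ((f.leadingCoeff : ℂ) * GP.Wt (Rt f) θ) := by
  have hinj : Function.Injective (Int.castRingHom ℂ) := RingHom.injective_int _
  have h1 := Polynomial.resultant_map_map (f := f) (g := Polynomial.derivative f)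
    (m := f.natDegree) (n := f.natDegree - 1) (Int.castRingHom ℂ)
  have hdf : (f.map (Int.castRingHom ℂ)).natDegree = f.natDegree :=
    Polynomial.natDegree_map_eq_of_injective hinj f
  have h2 := Polynomial.resultant_eq_prod_eval (f.map (Int.castRingHom ℂ))
    ((Polynomial.derivative f).map (Int.castRingHom ℂ)) (f.natDegree - 1)
    (Polynomial.natDegree_map_le.trans (Polynomial.natDegree_derivative_le f))
    (IsAlgClosed.splits _)
  rw [hdf, h1, Polynomial.leadingCoeff_map_of_injective hinj] at h2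
  have h3 : ((f.map (Int.castRingHom ℂ)).roots.map
      (fun θ => Polynomial.eval θ ((Polynomial.derivative f).map (Int.castRingHom ℂ)))).prod =
      ∏ θ ∈ Rt f, ((f.leadingCoeff : ℂ) * GP.Wt (Rt f) θ) := by
    have hval : (Rt f).val = (f.map (Int.castRingHom ℂ)).roots := by
      rw [Rt, Multiset.toFinset_val, Multiset.dedup_eq_self.mpr (GP.nodup hs)]
    have h4 : ∏ θ ∈ Rt f, ((f.leadingCoeff : ℂ) * GP.Wt (Rt f) θ) = ∏ θ ∈ Rt f,
        Polynomial.eval θ ((Polynomial.derivative f).map (Int.castRingHom ℂ)) := by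
      refine prod_congr rfl fun θ hθ => ?_
      rw [← deriv_Rt hs hθ, Polynomial.eval_map, Polynomial.aeval_def]
      rfl
    rw [h4, Finset.prod, hval]
  rw [h3] at h2
  simpa using h2

/-- the lower bound for the derivative at a root -/
lemma Wt_inv_bound (hs : (Polynomial.map (Int.castRingHom ℚ) f).Separable) (hf : f ≠ 0) (hd : 1 ≤ f.natDegree) {ρ h : ℝ}
    (hρ : 1 / 2 ≤ ρ) (hroot : ∀ θ ∈ Rt f, ‖θ‖ ≤ ρ) (hh : 1 ≤ h)
    (hl : |(f.leadingCoeff : ℝ)| ≤ h) {θ : ℂ} (hθ : θ ∈ Rt f) :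
    ‖(GP.Wt (Rt f) θ)⁻¹‖ ≤ h ^ (2 * f.natDegree) * (2 * ρ) ^ (f.natDegree * f.natDegree) := by
  set d := f.natDegree with hdd
  have hcard : (Rt f).card = d := card_Rt hs
  have h2ρ : 1 ≤ 2 * ρ := by linarith
  have hWle : ∀ η ∈ Rt f, ‖GP.Wt (Rt f) η‖ ≤ (2 * ρ) ^ d := by
    intro η hη
    rw [GP.Wt, norm_prod]
    calc ∏ ζ ∈ (Rt f).erase η, ‖η - ζ‖ ≤ ∏ _ζ ∈ (Rt f).erase η, (2 * ρ) := by
          refine prod_le_prod (fun _ _ => norm_nonneg _) fun ζ hζ => ?_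
          have h1 := norm_sub_le η ζ
          have h2 := hroot η hη
          have h3 := hroot ζ (mem_erase.mp hζ).2
          linarith
      _ = (2 * ρ) ^ ((Rt f).erase η).card := by rw [prod_const]
      _ ≤ _ := by
          refine pow_le_pow_right₀ h2ρ ?_
          rw [← hcard]; exact card_le_card (erase_subset _ _)
  have hD0 := GP.res_ne hs hd
  have hD1 : 1 ≤ ‖((Polynomial.resultant f (Polynomial.derivative f) f.natDegree
      (f.natDegree - 1) : ℤ) : ℂ)‖ := by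
    rw [Complex.norm_intCast]
    have := Int.one_le_abs hD0
    have h' : ((1 : ℤ) : ℝ) ≤ ((|Polynomial.resultant f (Polynomial.derivative f) f.natDegree
      (f.natDegree - 1)| : ℤ) : ℝ) := by exact_mod_cast this
    rwa [Int.cast_one, Int.cast_abs] at h'
  rw [res_prod hs, prod_mul_distrib, prod_const, hcard, ← mul_assoc, ← pow_add, norm_mul,
    norm_pow, Complex.norm_intCast, norm_prod, ← mul_prod_erase (Rt f) _ hθ] at hD1
  have h5 : ∏ η ∈ (Rt f).erase θ, ‖GP.Wt (Rt f) η‖ ≤ (2 * ρ) ^ (d * d) := by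
    calc ∏ η ∈ (Rt f).erase θ, ‖GP.Wt (Rt f) η‖ ≤ ∏ _η ∈ (Rt f).erase θ, (2 * ρ) ^ d :=
          prod_le_prod (fun _ _ => norm_nonneg _) fun η hη => hWle η (mem_erase.mp hη).2
      _ = (2 * ρ) ^ (d * ((Rt f).erase θ).card) := by rw [prod_const, pow_mul]
      _ ≤ _ := by
          refine pow_le_pow_right₀ h2ρ (Nat.mul_le_mul_left _ ?_)
          rw [← hcard]; exact card_le_card (erase_subset _ _)
  have h6 : |(f.leadingCoeff : ℝ)| ^ (f.natDegree - 1 + d) ≤ h ^ (2 * d) :=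
    (pow_le_pow_left₀ (abs_nonneg _) hl _).trans (pow_le_pow_right₀ hh (by omega))
  have hW0 : 0 < ‖GP.Wt (Rt f) θ‖ := norm_pos_iff.mpr (GP.Wt_ne θ)
  have hP0 : 0 ≤ ∏ η ∈ (Rt f).erase θ, ‖GP.Wt (Rt f) η‖ := prod_nonneg fun _ _ => norm_nonneg _
  rw [norm_inv, inv_le_iff_one_le_mul₀ hW0]
  calc (1 : ℝ) ≤ _ := hD1
    _ ≤ h ^ (2 * d) * (‖GP.Wt (Rt f) θ‖ * (2 * ρ) ^ (d * d)) := by
        refine mul_le_mul h6 ?_ (by positivity) (by positivity)
        exact mul_le_mul_of_nonneg_left h5 hW0.le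
    _ = _ := by ring

/-- **The constants.** -/
theorem constants (d : ℕ) (hd : 1 ≤ d) : ∃ K : ℕ, ∀ (H : ℕ) (f : Polynomial ℤ), 1 ≤ H →
    f.natDegree = d → (Polynomial.map (Int.castRingHom ℚ) f).Separable → f ≠ 0 → (∀ i, |f.coeff i| ≤ H) →
    4 ≤ (2 * (H : ℝ)) ^ K ∧ (d : ℝ) ≤ (2 * (H : ℝ)) ^ K ∧
    (1 + 2 * ((d : ℝ) * H)) ^ d ≤ (2 * (H : ℝ)) ^ K ∧
    |(f.leadingCoeff : ℝ)| ≤ (2 * (H : ℝ)) ^ K ∧
    (∀ θ ∈ Rt f, ‖θ‖ ≤ (d : ℝ) * H) ∧
    (∀ θ ∈ Rt f, ‖(GP.Wt (Rt f) θ)⁻¹‖ ≤ (2 * (H : ℝ)) ^ K) ∧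
    |((Polynomial.resultant f (Polynomial.derivative f) f.natDegree (f.natDegree - 1) : ℤ) : ℝ)| *
      |(f.leadingCoeff : ℝ)| ^ d ≤ (2 * (H : ℝ)) ^ K := by
  obtain ⟨K1, h1⟩ := ((PB.const 1).add ((PB.const 2).mul ((PB.const d).mul PB.id))).pow d
  obtain ⟨K2, h2⟩ := (PB.id.pow (2 * d)).mul (((PB.const 2).mul ((PB.const d).mul PB.id)).pow
    (d * d))
  obtain ⟨K3, h3⟩ := ((PB.const (2 * d).factorial).mul (((PB.const d).mul
    (PB.id.add (PB.const 1))).pow (2 * d))).mul (PB.id.pow d)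
  obtain ⟨K4, h4⟩ := PB.const 4
  obtain ⟨K5, h5⟩ := PB.const d
  obtain ⟨K6, h6⟩ := PB.id
  refine ⟨K1 + K2 + K3 + K4 + K5 + K6, fun H f hH hfd hs hf hfH => ?_⟩
  have hH1 : (1 : ℝ) ≤ H := by exact_mod_cast hH
  have h2H : (1 : ℝ) ≤ 2 * H := by linarith
  have hmono : ∀ k, k ≤ K1 + K2 + K3 + K4 + K5 + K6 → (2 * (H : ℝ)) ^ k ≤
      (2 * (H : ℝ)) ^ (K1 + K2 + K3 + K4 + K5 + K6) := fun k hk => pow_le_pow_right₀ h2H hk
  have hl : |(f.leadingCoeff : ℝ)| ≤ H := by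
    have h' : ((|f.leadingCoeff| : ℤ) : ℝ) ≤ ((H : ℤ) : ℝ) := by
      exact_mod_cast hfH f.natDegree
    rwa [Int.cast_abs, Int.cast_natCast] at h'
  have hroot : ∀ θ ∈ Rt f, ‖θ‖ ≤ (d : ℝ) * H := by
    intro θ hθ
    have := GP.root_bound hH1 (GP.eqn_Rt hs hf H hfH) hθ
    rwa [card_Rt hs, hfd] at this
  have hdR : (1 : ℝ) ≤ d := by exact_mod_cast hd
  refine ⟨?_, ?_, ?_, ?_, hroot, ?_, ?_⟩
  · have := (h4 H hH).2
    push_cast at this
    exact this.trans (hmono _ (by omega))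
  · exact (h5 H hH).2.trans (hmono _ (by omega))
  · have := (h1 H hH).2
    push_cast at this
    exact this.trans (hmono _ (by omega))
  · exact hl.trans ((h6 H hH).2.trans (hmono _ (by omega)))
  · intro θ hθ
    have h7 := Wt_inv_bound hs hf (by omega) (ρ := (d : ℝ) * H) (h := H) (by nlinarith) hroot hH1
      hl hθ
    have := (h2 H hH).2
    push_cast at this
    rw [hfd] at h7
    exact h7.trans (this.trans (hmono _ (by omega)))
  · have h8 := GP.res_bound f H hfH (by omega)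
    have h9 : |((Polynomial.resultant f (Polynomial.derivative f) f.natDegree
        (f.natDegree - 1) : ℤ) : ℝ)| ≤ ((2 * d).factorial : ℝ) * ((d : ℝ) * (H + 1)) ^ (2 * d) := by
      have h2 : ((|Polynomial.resultant f (Polynomial.derivative f) f.natDegree
          (f.natDegree - 1)| : ℤ) : ℝ) ≤
          ((((2 * f.natDegree).factorial : ℤ) *
            ((f.natDegree : ℤ) * (H + 1)) ^ (2 * f.natDegree) : ℤ) : ℝ) := by exact_mod_cast h8
      rw [Int.cast_abs] at h2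
      push_cast at h2
      rw [hfd] at h2 ⊢
      push_cast
      exact h2
    have h10 := (h3 H hH).2
    push_cast at h10
    refine le_trans ?_ (h10.trans (hmono _ (by omega)))
    exact mul_le_mul h9 (pow_le_pow_left₀ (abs_nonneg _) hl d) (by positivity) (by positivity)

end Pool.Agent.U133.HP
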