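import Pool.Agent.U133.HP.Bin
import Pool.Agent.U133.GP.Rec

set_option autoImplicit false

/-!
# Sums of residues
-/

namespace Pool.Agent.U133.HP

open Finset


/-- the taylor series -/
noncomputable def tay (θ : ℂ) : Polynomial ℂ →+* PowerSeries ℂ :=
  Polynomial.eval₂RingHom (PowerSeries.C : ℂ →+* PowerSeries ℂ) ((PowerSeries.X : PowerSeries ℂ) + (PowerSeries.C : ℂ →+* PowerSeries ℂ) θ)

@[simp] lemma tay_X (θ : ℂ) : tay θ (Polynomial.X : Polynomial ℂ) = (PowerSeries.X : PowerSeries ℂ) + (PowerSeries.C : ℂ →+* PowerSeries ℂ) θ := by simp [tay]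
@[simp] lemma tay_C (θ c : ℂ) : tay θ ((Polynomial.C : ℂ →+* Polynomial ℂ) c) = (PowerSeries.C : ℂ →+* PowerSeries ℂ) c := by simp [tay]

lemma tay_coe (θ : ℂ) (p : Polynomial ℂ) :
    tay θ p = ((Polynomial.taylor θ p : Polynomial ℂ) : PowerSeries ℂ) := by
  have h : tay θ = (Polynomial.coeToPowerSeries.ringHom).comp
      (Polynomial.taylorAlgHom θ : Polynomial ℂ →+* Polynomial ℂ) := by
    apply Polynomial.ringHom_ext
    · intro a
      simp
    · simp
  rw [h]
  simp

lemma coeff_tay (θ : ℂ) (p : Polynomial ℂ) (k : ℕ) :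
    PowerSeries.coeff k (tay θ p) = (Polynomial.hasseDeriv k p).eval θ := by
  rw [tay_coe, Polynomial.coeff_coe, Polynomial.taylor_coeff]

lemma coeff_tay_pow (θ : ℂ) (m k : ℕ) :
    PowerSeries.coeff k (tay θ ((Polynomial.X : Polynomial ℂ) ^ m)) = (m.choose k : ℂ) * θ ^ (m - k) := by
  rw [tay_coe, Polynomial.coeff_coe, Polynomial.taylor_coeff, ← Polynomial.monomial_one_right_eq_X_pow,
    Polynomial.hasseDeriv_monomial, Polynomial.eval_monomial]
  ring

lemma dd_tay (θ : ℂ) (p : Polynomial ℂ) : (PowerSeries.derivative ℂ) (tay θ p) = tay θ (Polynomial.derivative p) := by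
  induction p using Polynomial.induction_on' with
  | add p q hp hq => rw [map_add, map_add, hp, hq, map_add, map_add]
  | monomial n a =>
    rw [← Polynomial.C_mul_X_pow_eq_monomial, map_mul (tay θ), tay_C, map_pow (tay θ), tay_X,
      Polynomial.derivative_C_mul_X_pow, map_mul (tay θ), tay_C, map_pow (tay θ), tay_X]
    rw [Derivation.leibniz, PowerSeries.derivative_C, PowerSeries.derivative_pow, map_add (PowerSeries.derivative ℂ),
      PowerSeries.derivative_C, PowerSeries.derivative_X]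
    simp only [smul_eq_mul, smul_zero, add_zero, mul_one, mul_zero]
    rw [map_mul (PowerSeries.C : ℂ →+* PowerSeries ℂ), map_natCast (PowerSeries.C : ℂ →+* PowerSeries ℂ)]
    ring

/-- the residue of a derivative -/
lemma res_der (A q : PowerSeries ℂ) (hq : PowerSeries.constantCoeff q ≠ 0) (n : ℕ) :
    PowerSeries.coeff n (((PowerSeries.derivative ℂ) A * ((PowerSeries.X : PowerSeries ℂ) * q) - (n : PowerSeries ℂ) * A * (PowerSeries.derivative ℂ) ((PowerSeries.X : PowerSeries ℂ) * q)) *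
      q⁻¹ ^ (n + 1)) = 0 := by
  have hqq : q * q⁻¹ = 1 := PowerSeries.mul_inv_cancel _ hq
  have hX : (PowerSeries.derivative ℂ) (PowerSeries.X : PowerSeries ℂ) = 1 := PowerSeries.derivative_X
  have hd : (PowerSeries.derivative ℂ) (q⁻¹ ^ n) = -((n : PowerSeries ℂ) * q⁻¹ ^ (n + 1) * (PowerSeries.derivative ℂ) q) := by
    rw [PowerSeries.derivative_pow, PowerSeries.derivative_inv']
    rcases n with _ | n
    · simp
    · rw [show n + 1 - 1 = n by omega]; ring
  have e1 : ((PowerSeries.derivative ℂ) A * ((PowerSeries.X : PowerSeries ℂ) * q) - (n : PowerSeries ℂ) * A * (PowerSeries.derivative ℂ) ((PowerSeries.X : PowerSeries ℂ) * q)) * q⁻¹ ^ (n + 1) =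
      (PowerSeries.X : PowerSeries ℂ) * (PowerSeries.derivative ℂ) (A * q⁻¹ ^ n) - (n : PowerSeries ℂ) * (A * q⁻¹ ^ n) := by
    rw [Derivation.leibniz, Derivation.leibniz, hd, hX]
    simp only [smul_eq_mul]
    have e2 : q * q⁻¹ ^ (n + 1) = q⁻¹ ^ n := by
      rw [pow_succ, mul_comm (q⁻¹ ^ n), ← mul_assoc, hqq, one_mul]
    linear_combination ((PowerSeries.derivative ℂ) A * (PowerSeries.X : PowerSeries ℂ) - (n : PowerSeries ℂ) * A) * e2
  rw [e1, map_sub]
  have e3 : PowerSeries.coeff n ((n : PowerSeries ℂ) * (A * q⁻¹ ^ n)) =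
      (n : ℂ) * PowerSeries.coeff n (A * q⁻¹ ^ n) := by
    rw [← map_natCast (PowerSeries.C : ℂ →+* PowerSeries ℂ), PowerSeries.coeff_C_mul]
  rw [e3]
  rcases n with _ | n
  · simp
  · rw [PowerSeries.coeff_succ_X_mul, PowerSeries.coeff_derivative]
    push_cast; ring

/-! ### the data of a finite set of nodes -/

/-- the monic polynomial -/
noncomputable def Mp (R : Finset ℂ) : Polynomial ℂ := ∏ η ∈ R, ((Polynomial.X : Polynomial ℂ) - (Polynomial.C : ℂ →+* Polynomial ℂ) η)

/-- the cofactor -/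
noncomputable def Me (R : Finset ℂ) (θ : ℂ) : Polynomial ℂ := ∏ η ∈ R.erase θ, ((Polynomial.X : Polynomial ℂ) - (Polynomial.C : ℂ →+* Polynomial ℂ) η)

/-- the series `M(θ + X) / X` -/
noncomputable def qs (R : Finset ℂ) (θ : ℂ) : PowerSeries ℂ := tay θ (Me R θ)

lemma Mp_monic (R : Finset ℂ) : (Mp R).Monic :=
  Polynomial.monic_prod_of_monic _ _ fun η _ => Polynomial.monic_X_sub_C η

lemma Mp_natDegree (R : Finset ℂ) : (Mp R).natDegree = R.card := by
  rw [Mp, Polynomial.natDegree_prod_of_monic _ _ fun η _ => Polynomial.monic_X_sub_C η]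
  simp

lemma Mp_eq {R : Finset ℂ} {θ : ℂ} (hθ : θ ∈ R) : Mp R = ((Polynomial.X : Polynomial ℂ) - (Polynomial.C : ℂ →+* Polynomial ℂ) θ) * Me R θ := by
  rw [Mp, Me, mul_prod_erase R (fun η => (Polynomial.X : Polynomial ℂ) - (Polynomial.C : ℂ →+* Polynomial ℂ) η) hθ]

lemma tay_Mp {R : Finset ℂ} {θ : ℂ} (hθ : θ ∈ R) : tay θ (Mp R) = (PowerSeries.X : PowerSeries ℂ) * qs R θ := by
  rw [Mp_eq hθ, map_mul, map_sub, tay_X, tay_C, qs]; ring

lemma qs_zero (R : Finset ℂ) (θ : ℂ) : PowerSeries.constantCoeff (qs R θ) = GP.Wt R θ := by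
  rw [← PowerSeries.coeff_zero_eq_constantCoeff_apply, qs, coeff_tay, Polynomial.hasseDeriv_zero,
    LinearMap.id_apply, Me, Polynomial.eval_prod, GP.Wt]
  simp

lemma qs_ne (R : Finset ℂ) (θ : ℂ) : PowerSeries.constantCoeff (qs R θ) ≠ 0 := by
  rw [qs_zero]; exact GP.Wt_ne θ

lemma qs_mul (R : Finset ℂ) (θ : ℂ) : qs R θ * (qs R θ)⁻¹ = 1 :=
  PowerSeries.mul_inv_cancel _ (qs_ne R θ)

/-- the sum of the residues -/
noncomputable def Lf (R : Finset ℂ) (n : ℕ) (p : Polynomial ℂ) : ℂ :=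
  ∑ θ ∈ R, PowerSeries.coeff n (tay θ p * (qs R θ)⁻¹ ^ (n + 1))

lemma Lf_add (R : Finset ℂ) (n : ℕ) (p q : Polynomial ℂ) :
    Lf R n (p + q) = Lf R n p + Lf R n q := by
  rw [Lf, Lf, Lf, ← sum_add_distrib]
  refine sum_congr rfl fun θ _ => ?_
  rw [map_add, add_mul, map_add]

lemma Lf_sub (R : Finset ℂ) (n : ℕ) (p q : Polynomial ℂ) :
    Lf R n (p - q) = Lf R n p - Lf R n q := by
  rw [Lf, Lf, Lf, ← sum_sub_distrib]
  refine sum_congr rfl fun θ _ => ?_
  rw [map_sub, sub_mul, map_sub]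

lemma Lf_C_mul (R : Finset ℂ) (n : ℕ) (c : ℂ) (p : Polynomial ℂ) :
    Lf R n ((Polynomial.C : ℂ →+* Polynomial ℂ) c * p) = c * Lf R n p := by
  rw [Lf, Lf, mul_sum]
  refine sum_congr rfl fun θ _ => ?_
  rw [map_mul (tay θ), tay_C, mul_assoc, PowerSeries.coeff_C_mul]

/-- multiplication by `M` -/
lemma Lf_M (R : Finset ℂ) (n : ℕ) (p : Polynomial ℂ) :
    Lf R (n + 1) (p * Mp R) = Lf R n p := by
  rw [Lf, Lf]
  refine sum_congr rfl fun θ hθ => ?_
  rw [map_mul (tay θ), tay_Mp hθ]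
  have e : tay θ p * ((PowerSeries.X : PowerSeries ℂ) * qs R θ) * (qs R θ)⁻¹ ^ (n + 1 + 1) =
      (PowerSeries.X : PowerSeries ℂ) * (tay θ p * (qs R θ)⁻¹ ^ (n + 1)) := by
    rw [pow_succ ((qs R θ)⁻¹) (n + 1)]
    linear_combination (tay θ p * (PowerSeries.X : PowerSeries ℂ) * (qs R θ)⁻¹ ^ (n + 1)) * qs_mul R θ
  rw [e, PowerSeries.coeff_succ_X_mul]

/-- multiplication by the full power of `M` -/
lemma Lf_zero (R : Finset ℂ) (n : ℕ) (p : Polynomial ℂ) :
    Lf R n (Mp R ^ (n + 1) * p) = 0 := by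
  rw [Lf]
  refine sum_eq_zero fun θ hθ => ?_
  rw [map_mul (tay θ), map_pow (tay θ), tay_Mp hθ, mul_pow]
  have e : (PowerSeries.X : PowerSeries ℂ) ^ (n + 1) * qs R θ ^ (n + 1) * tay θ p * (qs R θ)⁻¹ ^ (n + 1) =
      (PowerSeries.X : PowerSeries ℂ) ^ (n + 1) * tay θ p := by
    have h : qs R θ ^ (n + 1) * (qs R θ)⁻¹ ^ (n + 1) = 1 := by
      rw [← mul_pow, qs_mul, one_pow]
    linear_combination ((PowerSeries.X : PowerSeries ℂ) ^ (n + 1) * tay θ p) * h
  rw [e, PowerSeries.coeff_X_pow_mul', if_neg (by omega)]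

/-- the relation of the derivatives -/
lemma Lf_der (R : Finset ℂ) (n : ℕ) (p : Polynomial ℂ) :
    Lf R n (Polynomial.derivative p * Mp R) =
      n * Lf R n (p * Polynomial.derivative (Mp R)) := by
  have h : Lf R n (Polynomial.derivative p * Mp R - (Polynomial.C : ℂ →+* Polynomial ℂ) (n : ℂ) *
      (p * Polynomial.derivative (Mp R))) = 0 := by
    rw [Lf]
    refine sum_eq_zero fun θ hθ => ?_
    have := res_der (tay θ p) (qs R θ) (qs_ne R θ) n
    rw [← tay_Mp hθ, dd_tay, dd_tay] at this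
    rw [map_sub (tay θ), map_mul (tay θ), map_mul (tay θ), tay_C, map_mul (tay θ),
      map_natCast (PowerSeries.C : ℂ →+* PowerSeries ℂ), ← mul_assoc]
    exact this
  rw [Lf_sub, Lf_C_mul, sub_eq_zero] at h
  exact h

lemma Mp_sep (R : Finset ℂ) : (Mp R).Separable := by
  rw [Mp]
  exact Polynomial.separable_prod_X_sub_C_iff'.mpr fun x _ y _ h => h

/-- **The sum of the residues is the top coefficient.** -/
lemma Lf_top (R : Finset ℂ) (hR : 1 ≤ R.card) (n : ℕ) : ∀ g : Polynomial ℂ,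
    g.natDegree < R.card * (n + 1) → Lf R n g = g.coeff (R.card * (n + 1) - 1) := by
  induction n with
  | zero =>
    intro g hg
    rw [zero_add, mul_one] at hg ⊢
    have hdeg : g.degree < R.card := by
      by_cases h0 : g = 0
      · rw [h0, Polynomial.degree_zero]; exact WithBot.bot_lt_coe _
      · exact (Polynomial.natDegree_lt_iff_degree_lt h0).mp hg
    rw [GP.coeff_eq g hdeg, Lf]
    refine sum_congr rfl fun θ _ => ?_
    rw [PowerSeries.coeff_zero_eq_constantCoeff_apply, map_mul, pow_one,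
      PowerSeries.constantCoeff_inv, qs_zero, ← PowerSeries.coeff_zero_eq_constantCoeff_apply,
      coeff_tay, Polynomial.hasseDeriv_zero, LinearMap.id_apply, div_eq_mul_inv]
  | succ n ih =>
    intro g hg
    set d := R.card with hd
    obtain ⟨a, b, hab⟩ := Mp_sep R
    set p := (g * b) %ₘ Mp R with hp
    set r := ((g * b) /ₘ Mp R) * Polynomial.derivative (Mp R) + g * a with hr
    have hM := Mp_monic R
    have hMd : (Mp R).natDegree = d := Mp_natDegree R
    have hgb : g * b = p + Mp R * ((g * b) /ₘ Mp R) := (Polynomial.modByMonic_add_div _ (Mp R)).symm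
    have hg2 : g = p * Polynomial.derivative (Mp R) + r * Mp R := by
      rw [hr]
      linear_combination (Polynomial.derivative (Mp R)) * hgb - g * hab
    have hpd : p.natDegree < d := by
      rw [← hMd]
      apply Polynomial.natDegree_modByMonic_lt _ hM
      intro h1
      rw [h1] at hMd
      simp at hMd
      omega
    have hMd' : (Polynomial.derivative (Mp R)).natDegree ≤ d - 1 := by
      rw [← hMd]; exact Polynomial.natDegree_derivative_le _
    have hdn : d * (n + 1 + 1) = d * (n + 1) + d := by ring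
    have hdn' : d ≤ d * (n + 1) := Nat.le_mul_of_pos_right _ (by omega)
    have hpM : (p * Polynomial.derivative (Mp R)).natDegree < d * (n + 1 + 1) - 1 := by
      refine lt_of_le_of_lt (Polynomial.natDegree_mul_le) ?_
      omega
    have hrd : r.natDegree < d * (n + 1) := by
      by_cases hr0 : r = 0
      · rw [hr0, Polynomial.natDegree_zero]; omega
      have h1 : (r * Mp R).natDegree = r.natDegree + d := by
        rw [Polynomial.natDegree_mul hr0 hM.ne_zero, hMd]
      have h2 : r * Mp R = g - p * Polynomial.derivative (Mp R) := by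
        linear_combination -hg2
      have h3 : (r * Mp R).natDegree < d * (n + 1 + 1) := by
        rw [h2]
        refine lt_of_le_of_lt (Polynomial.natDegree_sub_le _ _) ?_
        apply max_lt hg
        omega
      omega
    have hder := Lf_der R (n + 1) p
    rw [Lf_M, ih (Polynomial.derivative p) (by
      have := Polynomial.natDegree_derivative_le p
      omega)] at hder
    have h0 : (Polynomial.derivative p).coeff (d * (n + 1) - 1) = 0 := by
      rw [Polynomial.coeff_derivative, Polynomial.coeff_eq_zero_of_natDegree_lt (by omega),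
        zero_mul]
    rw [h0] at hder
    have h1 : Lf R (n + 1) (p * Polynomial.derivative (Mp R)) = 0 := by
      rcases mul_eq_zero.mp hder.symm with h | h
      · exfalso
        have : ((n + 1 : ℕ) : ℂ) ≠ 0 := by exact_mod_cast Nat.succ_ne_zero n
        exact this h
      · exact h
    have h2 : g.coeff (d * (n + 1 + 1) - 1) = r.coeff (d * (n + 1) - 1) := by
      conv_lhs => rw [hg2]
      rw [Polynomial.coeff_add, Polynomial.coeff_eq_zero_of_natDegree_lt hpM, zero_add,
        show d * (n + 1 + 1) - 1 = (d * (n + 1) - 1) + d by omega,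
        Polynomial.coeff_mul_add_eq_of_natDegree_le (by omega) hMd.le]
      have h3 : (Mp R).coeff d = 1 := by
        rw [← hMd]; exact hM
      rw [h3, mul_one]
    rw [h2, ← ih r hrd, ← Lf_M R n r, ← zero_add (Lf R (n + 1) (r * Mp R)), ← h1, ← Lf_add, ← hg2]

/-- vanishing on small powers -/
lemma Lf_small (R : Finset ℂ) (hR : 1 ≤ R.card) (n k : ℕ) (hk : k + 1 < R.card * (n + 1)) :
    Lf R n ((Polynomial.X : Polynomial ℂ) ^ k) = 0 := by
  rw [Lf_top R hR n _ (by rw [Polynomial.natDegree_X_pow]; omega), Polynomial.coeff_X_pow,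
    if_neg (by omega)]

/-- the bound for the powers -/
lemma Lf_bound_aux (R : Finset ℂ) (hR : 1 ≤ R.card) (n : ℕ) {ρ : ℝ} (hρ : 1 / 2 ≤ ρ)
    (s : Multiset ℂ) : (∀ θ ∈ s, ‖θ‖ ≤ ρ) → ∀ D : Polynomial ℂ, D.Monic →
      D * (s.map fun θ => (Polynomial.X : Polynomial ℂ) - (Polynomial.C : ℂ →+* Polynomial ℂ) θ).prod = Mp R ^ (n + 1) →
      ∀ k, ‖Lf R n (D * (Polynomial.X : Polynomial ℂ) ^ k)‖ * (2 * ρ) ^ (Multiset.card s) ≤
        2 ^ (Multiset.card s) * (2 * ρ) ^ (k + 1) := by
  induction s using Multiset.induction_on with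
  | empty =>
    intro _ D _ hDM k
    rw [Multiset.map_zero, Multiset.prod_zero, mul_one] at hDM
    rw [hDM, Lf_zero, norm_zero, zero_mul]
    positivity
  | cons θ s ih =>
    intro hs D hD hDM k
    have hB : 0 < 2 * ρ := by linarith
    have hB1 : 1 ≤ 2 * ρ := by linarith
    have hθ : ‖θ‖ ≤ ρ := hs θ (Multiset.mem_cons_self _ _)
    have hs' : ∀ η ∈ s, ‖η‖ ≤ ρ := fun η h => hs η (Multiset.mem_cons_of_mem h)
    have hD' : (D * ((Polynomial.X : Polynomial ℂ) - (Polynomial.C : ℂ →+* Polynomial ℂ) θ)).Monic := hD.mul (Polynomial.monic_X_sub_C θ)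
    have hDM' : D * ((Polynomial.X : Polynomial ℂ) - (Polynomial.C : ℂ →+* Polynomial ℂ) θ) * (s.map fun θ => (Polynomial.X : Polynomial ℂ) - (Polynomial.C : ℂ →+* Polynomial ℂ) θ).prod = Mp R ^ (n + 1) := by
      rw [← hDM, Multiset.map_cons, Multiset.prod_cons]; ring
    have ih' := ih hs' (D * ((Polynomial.X : Polynomial ℂ) - (Polynomial.C : ℂ →+* Polynomial ℂ) θ)) hD' hDM'
    induction k with
    | zero =>
      rw [pow_zero, mul_one, zero_add, pow_one]
      have hdeg : D.natDegree + (Multiset.card s + 1) = R.card * (n + 1) := by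
        have h1 := congrArg Polynomial.natDegree hDM
        have hm : ((θ ::ₘ s).map fun θ => (Polynomial.X : Polynomial ℂ) - (Polynomial.C : ℂ →+* Polynomial ℂ) θ).prod.Monic :=
          Polynomial.monic_multiset_prod_of_monic _ _ fun η _ => Polynomial.monic_X_sub_C η
        rw [hD.natDegree_mul hm, (Mp_monic R).natDegree_pow, Mp_natDegree,
          Polynomial.natDegree_multiset_prod_X_sub_C_eq_card, Multiset.card_cons] at h1
        rw [h1]; ring
      rw [Lf_top R hR n D (by omega)]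
      rcases Nat.eq_zero_or_pos (Multiset.card s) with h0 | h0
      · have h1 : R.card * (n + 1) - 1 = D.natDegree := by omega
        rw [h1, Multiset.card_cons, h0, zero_add, pow_one, pow_one]
        have h2 : D.coeff D.natDegree = 1 := hD
        rw [h2, norm_one, one_mul]
        linarith
      · rw [Polynomial.coeff_eq_zero_of_natDegree_lt (by omega), norm_zero, zero_mul]
        positivity
    | succ k ihk =>
      have h1 : D * (Polynomial.X : Polynomial ℂ) ^ (k + 1) = (Polynomial.C : ℂ →+* Polynomial ℂ) θ * (D * (Polynomial.X : Polynomial ℂ) ^ k) + D * ((Polynomial.X : Polynomial ℂ) - (Polynomial.C : ℂ →+* Polynomial ℂ) θ) * (Polynomial.X : Polynomial ℂ) ^ k := by ring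
      rw [h1, Lf_add, Lf_C_mul, Multiset.card_cons]
      rw [Multiset.card_cons] at ihk
      set c := Multiset.card s with hc
      have h2 := ih' k
      set u := ‖Lf R n (D * (Polynomial.X : Polynomial ℂ) ^ k)‖ with hu
      set v := ‖Lf R n (D * ((Polynomial.X : Polynomial ℂ) - (Polynomial.C : ℂ →+* Polynomial ℂ) θ) * (Polynomial.X : Polynomial ℂ) ^ k)‖ with hv
      have hu0 : 0 ≤ u := norm_nonneg _
      have h3 : ‖θ * Lf R n (D * (Polynomial.X : Polynomial ℂ) ^ k) + Lf R n (D * ((Polynomial.X : Polynomial ℂ) - (Polynomial.C : ℂ →+* Polynomial ℂ) θ) * (Polynomial.X : Polynomial ℂ) ^ k)‖ ≤ ρ * u + v := by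
        refine (norm_add_le _ _).trans ?_
        rw [norm_mul]
        exact add_le_add (mul_le_mul_of_nonneg_right hθ hu0) le_rfl
      calc ‖θ * Lf R n (D * (Polynomial.X : Polynomial ℂ) ^ k) + Lf R n (D * ((Polynomial.X : Polynomial ℂ) - (Polynomial.C : ℂ →+* Polynomial ℂ) θ) * (Polynomial.X : Polynomial ℂ) ^ k)‖ * (2 * ρ) ^ (c + 1)
          ≤ (ρ * u + v) * (2 * ρ) ^ (c + 1) := mul_le_mul_of_nonneg_right h3 (by positivity)
        _ = ρ * (u * (2 * ρ) ^ (c + 1)) + (2 * ρ) * (v * (2 * ρ) ^ c) := by ring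
        _ ≤ ρ * (2 ^ (c + 1) * (2 * ρ) ^ (k + 1)) + (2 * ρ) * (2 ^ c * (2 * ρ) ^ (k + 1)) :=
            add_le_add (mul_le_mul_of_nonneg_left ihk (by linarith))
              (mul_le_mul_of_nonneg_left h2 hB.le)
        _ = _ := by ring

/-- the bound for the powers -/
lemma Lf_bound (R : Finset ℂ) (hR : 1 ≤ R.card) (n : ℕ) {ρ : ℝ} (hρ : 1 / 2 ≤ ρ)
    (h : ∀ θ ∈ R, ‖θ‖ ≤ ρ) (k : ℕ) : ‖Lf R n ((Polynomial.X : Polynomial ℂ) ^ k)‖ * (2 * ρ) ^ (R.card * (n + 1)) ≤
        2 ^ (R.card * (n + 1)) * (2 * ρ) ^ (k + 1) := by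
  have h1 := Lf_bound_aux R hR n hρ ((n + 1) • R.val) (fun θ hθ => h θ (by
    have := Multiset.mem_of_mem_nsmul hθ
    exact this)) 1 Polynomial.monic_one (by
      rw [one_mul, Multiset.map_nsmul, Multiset.prod_nsmul]
      rfl) k
  rw [one_mul, Multiset.card_nsmul, Finset.card_val, mul_comm (n + 1)] at h1
  exact h1

end Pool.Agent.U133.HP
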