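import Pool.Agent.U133.HP.Size
import Pool.Agent.U133.GP.Int

set_option autoImplicit false

/-!
# Rationality of the coefficients
-/

namespace Pool.Agent.U133.HP

open Finset


open Pool.Agent.U133.GP (Rt mem_Rt card_Rt prod_Rt deriv_Rt)

/-- the functions on the roots given by rational polynomials -/
def Ra (f : Polynomial ℤ) (g : ℂ → ℂ) : Prop :=
  ∃ P : Polynomial ℚ, ∀ θ ∈ Rt f, Polynomial.aeval θ P = g θ

variable {f : Polynomial ℤ}

lemma Ra.mul {g g' : ℂ → ℂ} (h : Ra f g) (h' : Ra f g') : Ra f (fun θ => g θ * g' θ) := by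
  obtain ⟨P, hP⟩ := h
  obtain ⟨P', hP'⟩ := h'
  exact ⟨P * P', fun θ hθ => by rw [map_mul, hP θ hθ, hP' θ hθ]⟩

lemma Ra.sum {ι : Type*} (s : Finset ι) {g : ι → ℂ → ℂ} (h : ∀ i ∈ s, Ra f (g i)) :
    Ra f (fun θ => ∑ i ∈ s, g i θ) := by
  choose! P hP using h
  exact ⟨∑ i ∈ s, P i, fun θ hθ => by
    rw [map_sum]; exact sum_congr rfl fun i hi => hP i hi θ hθ⟩

lemma Ra.neg {g : ℂ → ℂ} (h : Ra f g) : Ra f (fun θ => -g θ) := by
  obtain ⟨P, hP⟩ := h
  exact ⟨-P, fun θ hθ => by rw [map_neg, hP θ hθ]⟩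

lemma Ra_poly (P : Polynomial ℚ) : Ra f (fun θ => Polynomial.aeval θ P) := ⟨P, fun _ _ => rfl⟩

lemma Ra.congr {g g' : ℂ → ℂ} (h : Ra f g) (hg : ∀ θ ∈ Rt f, g θ = g' θ) : Ra f g' := by
  obtain ⟨P, hP⟩ := h
  exact ⟨P, fun θ hθ => by rw [hP θ hθ, hg θ hθ]⟩

lemma Ra_Wt (hs : (Polynomial.map (Int.castRingHom ℚ) f).Separable) (hf : f ≠ 0) : Ra f (GP.Wt (Rt f)) := by
  refine ⟨Polynomial.C ((f.leadingCoeff : ℚ)⁻¹) * Polynomial.derivative (Polynomial.map (Int.castRingHom ℚ) f), fun θ hθ => ?_⟩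
  have hlC : (f.leadingCoeff : ℂ) ≠ 0 := by
    exact_mod_cast (Polynomial.leadingCoeff_ne_zero.mpr hf)
  have h1 := deriv_Rt hs hθ
  have h2 : Polynomial.aeval θ (Polynomial.derivative (Polynomial.map (Int.castRingHom ℚ) f)) =
      Polynomial.aeval θ (Polynomial.derivative f) := by
    rw [Polynomial.derivative_map, Polynomial.aeval_def, Polynomial.aeval_def,
      Polynomial.eval₂_map]
    congr 1
  rw [map_mul, Polynomial.aeval_C, h2, h1, eq_ratCast]
  push_cast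
  field_simp

lemma Ra_inv_Wt (hs : (Polynomial.map (Int.castRingHom ℚ) f).Separable) (hf : f ≠ 0) : Ra f (fun θ => (GP.Wt (Rt f) θ)⁻¹) := by
  obtain ⟨a, b, hab⟩ := hs
  refine ⟨Polynomial.C (f.leadingCoeff : ℚ) * b, fun θ hθ => ?_⟩
  have h1 := deriv_Rt (f := f) ⟨a, b, hab⟩ hθ
  have h0 : Polynomial.aeval θ (Polynomial.map (Int.castRingHom ℚ) f) = 0 := by
    rw [← (mem_Rt hf).mp hθ, Polynomial.aeval_def, Polynomial.aeval_def, Polynomial.eval₂_map]
    congr 1
  have h2 : Polynomial.aeval θ (Polynomial.derivative (Polynomial.map (Int.castRingHom ℚ) f)) =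
      Polynomial.aeval θ (Polynomial.derivative f) := by
    rw [Polynomial.derivative_map, Polynomial.aeval_def, Polynomial.aeval_def,
      Polynomial.eval₂_map]
    congr 1
  have h3 := congrArg (Polynomial.aeval θ) hab
  rw [map_add, map_mul, map_mul, h0, mul_zero, zero_add, map_one, h2, h1] at h3
  rw [map_mul, Polynomial.aeval_C, eq_ratCast]
  have hW := GP.Wt_ne (R := Rt f) θ
  push_cast
  field_simp
  linear_combination h3

lemma qs_coeff (hs : (Polynomial.map (Int.castRingHom ℚ) f).Separable) (hf : f ≠ 0) {θ : ℂ} (hθ : θ ∈ Rt f) (k : ℕ) :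
    PowerSeries.coeff k (qs (Rt f) θ) = (f.leadingCoeff : ℂ)⁻¹ *
      Polynomial.aeval θ (Polynomial.hasseDeriv (k + 1) f) := by
  have hlC : (f.leadingCoeff : ℂ) ≠ 0 := by
    exact_mod_cast (Polynomial.leadingCoeff_ne_zero.mpr hf)
  have h1 : PowerSeries.coeff (k + 1) (tay θ (Mp (Rt f))) = PowerSeries.coeff k (qs (Rt f) θ) := by
    rw [tay_Mp hθ, PowerSeries.coeff_succ_X_mul]
  have h2 : f.map (Int.castRingHom ℂ) = (Polynomial.C : ℂ →+* Polynomial ℂ) (f.leadingCoeff : ℂ) * Mp (Rt f) := prod_Rt hs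
  have h3 : PowerSeries.coeff (k + 1) (tay θ (f.map (Int.castRingHom ℂ))) =
      (f.leadingCoeff : ℂ) * PowerSeries.coeff k (qs (Rt f) θ) := by
    rw [h2, map_mul (tay θ), tay_C, PowerSeries.coeff_C_mul, h1]
  rw [coeff_tay] at h3
  have h4 : Polynomial.eval θ (Polynomial.hasseDeriv (k + 1) (f.map (Int.castRingHom ℂ))) =
      Polynomial.aeval θ (Polynomial.hasseDeriv (k + 1) f) := by
    rw [Polynomial.aeval_def, ← Polynomial.eval_map]
    congr 1
    ext j
    rw [Polynomial.hasseDeriv_coeff, Polynomial.coeff_map, Polynomial.coeff_map,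
      Polynomial.hasseDeriv_coeff]
    simp
  rw [← h4, h3]
  field_simp

lemma Ra_qs (hs : (Polynomial.map (Int.castRingHom ℚ) f).Separable) (hf : f ≠ 0) (k : ℕ) :
    Ra f (fun θ => PowerSeries.coeff k (qs (Rt f) θ)) := by
  refine ⟨Polynomial.C ((f.leadingCoeff : ℚ)⁻¹) *
    (Polynomial.hasseDeriv (k + 1) f).map (Int.castRingHom ℚ), fun θ hθ => ?_⟩
  beta_reduce
  rw [qs_coeff hs hf hθ, map_mul, Polynomial.aeval_C, eq_ratCast]
  push_cast
  congr 1
  rw [Polynomial.aeval_def, Polynomial.aeval_def, Polynomial.eval₂_map]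
  congr 1

lemma Ra_inv (hs : (Polynomial.map (Int.castRingHom ℚ) f).Separable) (hf : f ≠ 0) (k : ℕ) :
    Ra f (fun θ => PowerSeries.coeff k (qs (Rt f) θ)⁻¹) := by
  induction k using Nat.strong_induction_on with
  | _ k ih =>
    rcases k with _ | k
    · exact (Ra_inv_Wt hs hf).congr fun θ _ => by rw [inv_zero', qs_zero]
    · have h1 : Ra f (fun θ => ∑ ij ∈ antidiagonal k,
          PowerSeries.coeff (ij.1 + 1) (qs (Rt f) θ) *
            PowerSeries.coeff ij.2 (qs (Rt f) θ)⁻¹) := by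
        apply Ra.sum
        intro ij hij
        have h4 := mem_antidiagonal.mp hij
        exact (Ra_qs hs hf _).mul (ih _ (by omega))
      refine (((Ra_inv_Wt hs hf).neg).mul h1).congr fun θ _ => ?_
      rw [inv_rec (qs_ne (Rt f) θ), qs_zero]

/-- families of series with rational coefficients -/
def RaS (f : Polynomial ℤ) (n : ℕ) (s : ℂ → PowerSeries ℂ) : Prop :=
  ∀ k ≤ n, Ra f (fun θ => PowerSeries.coeff k (s θ))

lemma RaS.mul {n : ℕ} {s s' : ℂ → PowerSeries ℂ} (h : RaS f n s) (h' : RaS f n s') :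
    RaS f n (fun θ => s θ * s' θ) := by
  intro k hk
  have h1 : Ra f (fun θ => ∑ ij ∈ antidiagonal k,
      PowerSeries.coeff ij.1 (s θ) * PowerSeries.coeff ij.2 (s' θ)) := by
    apply Ra.sum
    intro ij hij
    have h4 := mem_antidiagonal.mp hij
    exact (h _ (by omega)).mul (h' _ (by omega))
  exact h1.congr fun θ _ => by rw [PowerSeries.coeff_mul]

lemma RaS.pow {n : ℕ} {s : ℂ → PowerSeries ℂ} (h : RaS f n s) (m : ℕ) :
    RaS f n (fun θ => s θ ^ m) := by
  induction m with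
  | zero =>
    intro k _
    refine (Ra_poly (f := f) (Polynomial.C (if k = 0 then (1 : ℚ) else 0))).congr fun θ _ => ?_
    beta_reduce
    rw [pow_zero, PowerSeries.coeff_one, Polynomial.aeval_C]
    split_ifs <;> simp
  | succ m ih =>
    have := ih.mul h
    intro k hk
    exact (this k hk).congr fun θ _ => by beta_reduce; rw [pow_succ]

/-- **Rationality.** -/
theorem Ra_Ph (hs : (Polynomial.map (Int.castRingHom ℚ) f).Separable) (hf : f ≠ 0) (n : ℕ) (x : ℤ)
    (hx : ∀ θ ∈ Rt f, (x : ℂ) ≠ θ) (i : ℕ) : Ra f (Ph (Rt f) n x i) := by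
  have h1 : RaS f n (fun θ => tay θ ((Polynomial.X : Polynomial ℂ) ^ i)) := by
    intro k _
    refine (Ra_poly (f := f) (Polynomial.C ((i.choose k : ℚ)) * Polynomial.X ^ (i - k))).congr
      fun θ _ => ?_
    rw [coeff_tay_pow]
    simp
  have h2 : RaS f n (fun θ => Ps n ((x : ℂ) - θ)) := by
    intro k hk
    refine (Ra_poly (f := f) (Polynomial.C (cc n k * (-1) ^ k) *
      (Polynomial.C (x : ℚ) - Polynomial.X) ^ (n - k))).congr fun θ hθ => ?_
    rw [coeff_Ps]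
    have hw : (x : ℂ) - θ ≠ 0 := sub_ne_zero.mpr (hx θ hθ)
    have h3 : ((x : ℂ) - θ) ^ n * ((x : ℂ) - θ)⁻¹ ^ k = ((x : ℂ) - θ) ^ (n - k) := by
      have : ((x : ℂ) - θ) ^ n = ((x : ℂ) - θ) ^ (n - k) * ((x : ℂ) - θ) ^ k := by
        rw [← pow_add]; congr 1; omega
      rw [this, mul_assoc, ← mul_pow, mul_inv_cancel₀ hw, one_pow, mul_one]
    rw [mul_assoc _ (((x : ℂ) - θ) ^ n), h3, map_mul, map_pow, map_sub, Polynomial.aeval_C,
      Polynomial.aeval_C, Polynomial.aeval_X]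
    simp
  have h3 : RaS f n (fun θ => (qs (Rt f) θ)⁻¹) := fun k _ => Ra_inv hs hf k
  exact ((h1.mul h2).mul (h3.pow (n + 1))) n le_rfl

end Pool.Agent.U133.HP
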