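import Pool.Agent.U133.HP.Anal

set_option autoImplicit false

/-!
# Sizes and integrality of the coefficients
-/

namespace Pool.Agent.U133.HP

open Finset


/-- the truncated weighted norm -/
noncomputable def sn (r : ℝ) (n : ℕ) (p : PowerSeries ℂ) : ℝ :=
  ∑ k ∈ range (n + 1), ‖PowerSeries.coeff k p‖ * r ^ k

lemma sn_nonneg {r : ℝ} (hr : 0 ≤ r) (n : ℕ) (p : PowerSeries ℂ) : 0 ≤ sn r n p :=
  sum_nonneg fun _ _ => by positivity

lemma coeff_le_sn {r : ℝ} (hr : 0 ≤ r) (n k : ℕ) (hk : k ≤ n) (p : PowerSeries ℂ) :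
    ‖PowerSeries.coeff k p‖ * r ^ k ≤ sn r n p :=
  single_le_sum (f := fun k => ‖PowerSeries.coeff k p‖ * r ^ k) (fun _ _ => by positivity)
    (mem_range.mpr (by omega))

lemma sn_mul {r : ℝ} (hr : 0 ≤ r) (n : ℕ) (p q : PowerSeries ℂ) :
    sn r n (p * q) ≤ sn r n p * sn r n q := by
  set a : ℕ → ℝ := fun k => ‖PowerSeries.coeff k p‖ * r ^ k with ha
  set b : ℕ → ℝ := fun k => ‖PowerSeries.coeff k q‖ * r ^ k with hb
  have h1 : sn r n (p * q) ≤ ∑ k ∈ range (n + 1), ∑ ij ∈ antidiagonal k, a ij.1 * b ij.2 := by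
    refine sum_le_sum fun k _ => ?_
    rw [PowerSeries.coeff_mul]
    refine (mul_le_mul_of_nonneg_right (norm_sum_le _ _) (by positivity)).trans ?_
    rw [sum_mul]
    refine sum_le_sum fun ij hij => ?_
    rw [norm_mul, ← mem_antidiagonal.mp hij, pow_add]
    simp only [ha, hb]
    apply le_of_eq; ring
  refine h1.trans ?_
  have h2 : ∑ k ∈ range (n + 1), ∑ ij ∈ antidiagonal k, a ij.1 * b ij.2 =
      ∑ ij ∈ (range (n + 1) ×ˢ range (n + 1)).filter (fun ij => ij.1 + ij.2 ∈ range (n + 1)),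
        a ij.1 * b ij.2 := by
    rw [← sum_fiberwise_of_maps_to (g := fun ij : ℕ × ℕ => ij.1 + ij.2) (t := range (n + 1))
      (fun ij hij => (mem_filter.mp hij).2)]
    refine sum_congr rfl fun k hk => ?_
    apply sum_congr _ fun _ _ => rfl
    ext ij
    rw [mem_range] at hk
    simp only [HasAntidiagonal.mem_antidiagonal, mem_filter, mem_product, mem_range]
    omega
  rw [h2, sn, sn, sum_mul_sum, ← sum_product']
  exact sum_le_sum_of_subset_of_nonneg (filter_subset _ _) fun _ _ _ => by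
    simp only [ha, hb]; positivity

lemma sn_one (r : ℝ) (n : ℕ) : sn r n 1 = 1 := by
  rw [sn, sum_eq_single 0]
  · simp
  · intro k _ hk
    rw [PowerSeries.coeff_one, if_neg hk, norm_zero, zero_mul]
  · intro h; exact absurd (mem_range.mpr (by omega)) h

lemma sn_pow {r : ℝ} (hr : 0 ≤ r) (n : ℕ) (p : PowerSeries ℂ) (m : ℕ) :
    sn r n (p ^ m) ≤ sn r n p ^ m := by
  induction m with
  | zero => rw [pow_zero, pow_zero, sn_one]
  | succ m ih =>
    rw [pow_succ, pow_succ]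
    exact (sn_mul hr n _ _).trans (mul_le_mul_of_nonneg_right ih (sn_nonneg hr n p))

lemma sn_prod {r : ℝ} (hr : 0 ≤ r) (n : ℕ) (s : Finset ℂ) (g : ℂ → PowerSeries ℂ) :
    sn r n (∏ η ∈ s, g η) ≤ ∏ η ∈ s, sn r n (g η) := by
  classical
  induction s using Finset.induction_on with
  | empty => rw [prod_empty, prod_empty, sn_one]
  | insert a s ha ih =>
    rw [prod_insert ha, prod_insert ha]
    exact (sn_mul hr n _ _).trans (mul_le_mul_of_nonneg_left ih (sn_nonneg hr n _))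

lemma sn_lin {r : ℝ} (hr : 0 ≤ r) (n : ℕ) (c : ℂ) : sn r n ((PowerSeries.X : PowerSeries ℂ) + (PowerSeries.C : ℂ →+* PowerSeries ℂ) c) ≤ r + ‖c‖ := by
  have h : ∀ k, ‖PowerSeries.coeff k ((PowerSeries.X : PowerSeries ℂ) + (PowerSeries.C : ℂ →+* PowerSeries ℂ) c)‖ * r ^ k ≤
      (if k = 1 then r else 0) + (if k = 0 then ‖c‖ else 0) := by
    intro k
    rw [map_add, PowerSeries.coeff_X, PowerSeries.coeff_C]
    rcases k with _ | _ | k
    · simp
    · simp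
    · simp
  rw [sn]
  refine (sum_le_sum fun k _ => h k).trans ?_
  rw [sum_add_distrib, sum_ite_eq', sum_ite_eq']
  apply add_le_add
  · split_ifs
    · exact le_rfl
    · exact hr
  · split_ifs
    · exact le_rfl
    · exact norm_nonneg _

lemma tay_lin (θ η : ℂ) : tay θ ((Polynomial.X : Polynomial ℂ) - (Polynomial.C : ℂ →+* Polynomial ℂ) η) = (PowerSeries.X : PowerSeries ℂ) + (PowerSeries.C : ℂ →+* PowerSeries ℂ) (θ - η) := by
  rw [map_sub (tay θ), tay_X, tay_C, map_sub (PowerSeries.C : ℂ →+* PowerSeries ℂ)]; ring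

lemma qs_size (R : Finset ℂ) {ρ : ℝ} (h : ∀ θ ∈ R, ‖θ‖ ≤ ρ) {θ : ℂ} (hθ : θ ∈ R) (k : ℕ) :
    ‖PowerSeries.coeff k (qs R θ)‖ ≤ (1 + 2 * ρ) ^ R.card := by
  have hρ : 0 ≤ ρ := (norm_nonneg θ).trans (h θ hθ)
  have h1 := coeff_le_sn (zero_le_one) k k le_rfl (qs R θ)
  rw [one_pow, mul_one] at h1
  refine h1.trans ?_
  rw [qs, Me, map_prod (tay θ)]
  refine (sn_prod zero_le_one k _ _).trans ?_
  calc ∏ η ∈ R.erase θ, sn 1 k (tay θ ((Polynomial.X : Polynomial ℂ) - (Polynomial.C : ℂ →+* Polynomial ℂ) η)) ≤ ∏ _η ∈ R.erase θ, (1 + 2 * ρ) := by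
        refine prod_le_prod (fun η _ => sn_nonneg zero_le_one k _) fun η hη => ?_
        rw [tay_lin]
        refine (sn_lin zero_le_one k _).trans ?_
        have h2 := norm_sub_le θ η
        have h3 := h θ hθ
        have h4 := h η (mem_erase.mp hη).2
        linarith
    _ = (1 + 2 * ρ) ^ (R.erase θ).card := by rw [prod_const]
    _ ≤ _ := pow_le_pow_right₀ (by linarith) (card_le_card (erase_subset _ _))

/-! ### the inverse series -/

lemma inv_rec {q : PowerSeries ℂ} (hq : PowerSeries.constantCoeff q ≠ 0) (k : ℕ) :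
    PowerSeries.coeff (k + 1) q⁻¹ = -(PowerSeries.constantCoeff q)⁻¹ *
      ∑ ij ∈ antidiagonal k, PowerSeries.coeff (ij.1 + 1) q * PowerSeries.coeff ij.2 q⁻¹ := by
  have h := congrArg (PowerSeries.coeff (k + 1)) (PowerSeries.mul_inv_cancel q hq)
  rw [PowerSeries.coeff_mul, Finset.Nat.sum_antidiagonal_succ, PowerSeries.coeff_one,
    if_neg (by omega), PowerSeries.coeff_zero_eq_constantCoeff_apply] at h
  field_simp
  linear_combination h

lemma inv_zero' (q : PowerSeries ℂ) : PowerSeries.coeff 0 q⁻¹ = (PowerSeries.constantCoeff q)⁻¹ := by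
  rw [PowerSeries.coeff_zero_eq_constantCoeff_apply, PowerSeries.constantCoeff_inv]

lemma geo_le {r : ℝ} (hr : 2 ≤ r) (k : ℕ) : ∑ j ∈ range (k + 1), r ^ j ≤ 2 * r ^ k := by
  induction k with
  | zero => simp
  | succ k ih =>
    rw [sum_range_succ, pow_succ r k]
    have : 0 < r ^ k := by positivity
    nlinarith

lemma inv_size {q : PowerSeries ℂ} (hq : PowerSeries.constantCoeff q ≠ 0) {G : ℝ} (hG : 1 ≤ G)
    (h1 : ‖(PowerSeries.constantCoeff q)⁻¹‖ ≤ G) (h2 : ∀ k, ‖PowerSeries.coeff k q‖ ≤ G) (k : ℕ) :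
    ‖PowerSeries.coeff k q⁻¹‖ ≤ G * (2 * G ^ 2) ^ k := by
  induction k using Nat.strong_induction_on with
  | _ k ih =>
    rcases k with _ | k
    · rw [inv_zero', pow_zero, mul_one]; exact h1
    · rw [inv_rec hq, norm_mul, norm_neg]
      have hG2 : (2 : ℝ) ≤ 2 * G ^ 2 := by nlinarith
      have h3 : ‖∑ ij ∈ antidiagonal k, PowerSeries.coeff (ij.1 + 1) q *
          PowerSeries.coeff ij.2 q⁻¹‖ ≤ ∑ ij ∈ antidiagonal k, G ^ 2 * (2 * G ^ 2) ^ ij.2 := by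
        refine norm_sum_le_of_le _ fun ij hij => ?_
        have h4 := mem_antidiagonal.mp hij
        rw [norm_mul]
        calc ‖PowerSeries.coeff (ij.1 + 1) q‖ * ‖PowerSeries.coeff ij.2 q⁻¹‖
            ≤ G * (G * (2 * G ^ 2) ^ ij.2) :=
              mul_le_mul (h2 _) (ih _ (by omega)) (norm_nonneg _) (by linarith)
          _ = _ := by ring
      have h5 : ∑ ij ∈ antidiagonal k, G ^ 2 * (2 * G ^ 2) ^ ij.2 =
          G ^ 2 * ∑ j ∈ range (k + 1), (2 * G ^ 2) ^ j := by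
        rw [mul_sum, Finset.Nat.antidiagonal_eq_map', sum_map]
        rfl
      rw [h5] at h3
      have h6 := geo_le hG2 k
      calc ‖(PowerSeries.constantCoeff q)⁻¹‖ * ‖∑ ij ∈ antidiagonal k,
            PowerSeries.coeff (ij.1 + 1) q * PowerSeries.coeff ij.2 q⁻¹‖
          ≤ G * (G ^ 2 * (2 * (2 * G ^ 2) ^ k)) := by
            apply mul_le_mul h1 (h3.trans _) (norm_nonneg _) (by linarith)
            exact mul_le_mul_of_nonneg_left h6 (by positivity)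
        _ = _ := by rw [pow_succ]; ring

lemma half_sum (n : ℕ) : ∑ k ∈ range (n + 1), ((1 : ℝ) / 2) ^ k ≤ 2 := by
  have : ∑ k ∈ range (n + 1), ((1 : ℝ) / 2) ^ k = 2 - (1 / 2) ^ n := by
    induction n with
    | zero => norm_num
    | succ n ih => rw [sum_range_succ, ih, pow_succ]; ring
  rw [this]
  have : (0 : ℝ) < (1 / 2) ^ n := by positivity
  linarith

lemma inv_sn {q : PowerSeries ℂ} (hq : PowerSeries.constantCoeff q ≠ 0) {G : ℝ} (hG : 1 ≤ G)
    (h1 : ‖(PowerSeries.constantCoeff q)⁻¹‖ ≤ G) (h2 : ∀ k, ‖PowerSeries.coeff k q‖ ≤ G) (n : ℕ) :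
    sn (1 / (4 * G ^ 2)) n q⁻¹ ≤ 2 * G := by
  have hG0 : 0 < G := by linarith
  calc sn (1 / (4 * G ^ 2)) n q⁻¹ ≤ ∑ k ∈ range (n + 1), G * (1 / 2) ^ k := by
        refine sum_le_sum fun k _ => ?_
        calc ‖PowerSeries.coeff k q⁻¹‖ * (1 / (4 * G ^ 2)) ^ k
            ≤ (G * (2 * G ^ 2) ^ k) * (1 / (4 * G ^ 2)) ^ k :=
              mul_le_mul_of_nonneg_right (inv_size hq hG h1 h2 k) (by positivity)
          _ = G * ((2 * G ^ 2) * (1 / (4 * G ^ 2))) ^ k := by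
              rw [mul_pow (2 * G ^ 2) (1 / (4 * G ^ 2)) k, mul_assoc]
          _ = G * (1 / 2) ^ k := by
              congr 2
              field_simp
              norm_num
    _ = G * ∑ k ∈ range (n + 1), (1 / 2) ^ k := by rw [mul_sum]
    _ ≤ G * 2 := mul_le_mul_of_nonneg_left (half_sum n) hG0.le
    _ = _ := by ring

lemma Ps_sn (n : ℕ) {w : ℂ} (hw : 1 ≤ ‖w‖) {r : ℝ} (hr : 0 ≤ r) (hr2 : r ≤ 1 / 2) :
    sn r n (Ps n w) ≤ 2 ^ (n + 1) * ‖w‖ ^ n := by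
  calc sn r n (Ps n w) ≤ ∑ k ∈ range (n + 1), 2 ^ n * ‖w‖ ^ n * (1 / 2) ^ k := by
        refine sum_le_sum fun k _ => ?_
        rw [coeff_Ps, norm_mul, norm_mul, norm_mul, norm_pow, norm_neg, norm_one, one_pow, mul_one,
          norm_pow, norm_pow, norm_inv]
        have h3 : ‖((cc n k : ℚ) : ℂ)‖ ≤ 2 ^ n := by
          have h4 := cc_le n k
          have h5 : ‖((cc n k : ℚ) : ℂ)‖ = ((|cc n k| : ℚ) : ℝ) := by
            rw [← Complex.ofReal_ratCast, Complex.norm_real, Real.norm_eq_abs]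
            push_cast; rfl
          rw [h5]
          exact_mod_cast h4
        have h6 : ‖w‖⁻¹ ^ k ≤ 1 := pow_le_one₀ (by positivity) (inv_le_one_of_one_le₀ hw)
        calc ‖((cc n k : ℚ) : ℂ)‖ * ‖w‖ ^ n * ‖w‖⁻¹ ^ k * r ^ k
            ≤ 2 ^ n * ‖w‖ ^ n * 1 * (1 / 2) ^ k := by gcongr
          _ = _ := by ring
    _ = 2 ^ n * ‖w‖ ^ n * ∑ k ∈ range (n + 1), (1 / 2) ^ k := by rw [mul_sum]
    _ ≤ 2 ^ n * ‖w‖ ^ n * 2 := mul_le_mul_of_nonneg_left (half_sum n) (by positivity)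
    _ = _ := by ring

/-- **The size of the coefficients.** -/
theorem Ph_size (R : Finset ℂ) (n : ℕ) (x : ℂ) (i : ℕ) {ρ G : ℝ} (h : ∀ θ ∈ R, ‖θ‖ ≤ ρ)
    (hG : 2 ≤ G) (hρG : (1 + 2 * ρ) ^ R.card ≤ G) (hi : i ≤ R.card)
    (hW : ∀ θ ∈ R, ‖(GP.Wt R θ)⁻¹‖ ≤ G) {θ : ℂ} (hθ : θ ∈ R) (hx : ρ + 1 ≤ ‖x‖) :
    ‖Ph R n x i θ‖ ≤ G ^ (8 * (n + 1)) * ‖x‖ ^ n := by
  have hρ : 0 ≤ ρ := (norm_nonneg θ).trans (h θ hθ)
  have hG0 : 0 < G := by linarith
  have hG1 : 1 ≤ G := by linarith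
  set r : ℝ := 1 / (4 * G ^ 2) with hr
  have hr0 : 0 < r := by positivity
  have hr2 : r ≤ 1 / 2 := by
    rw [hr]
    apply one_div_le_one_div_of_le (by norm_num)
    nlinarith
  have h1 : ∀ k, ‖PowerSeries.coeff k (qs R θ)‖ ≤ G := fun k => (qs_size R h hθ k).trans hρG
  have h2 : ‖(PowerSeries.constantCoeff (qs R θ))⁻¹‖ ≤ G := by rw [qs_zero]; exact hW θ hθ
  have h3 := inv_sn (qs_ne R θ) hG1 h2 h1 n
  have hw1 : 1 ≤ ‖x - θ‖ := by
    have := norm_sub_norm_le x θ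
    have := h θ hθ
    linarith
  have hw2 : ‖x - θ‖ ≤ 2 * ‖x‖ := by
    have := norm_sub_le x θ
    have := h θ hθ
    linarith
  have h4 := Ps_sn n hw1 hr0.le hr2
  have h5 : sn r n (tay θ ((Polynomial.X : Polynomial ℂ) ^ i)) ≤ G := by
    rw [map_pow (tay θ), tay_X]
    refine (sn_pow hr0.le n _ i).trans ?_
    have h6 := sn_lin hr0.le n θ
    have h7 := h θ hθ
    calc sn r n ((PowerSeries.X : PowerSeries ℂ) + (PowerSeries.C : ℂ →+* PowerSeries ℂ) θ) ^ i ≤ (1 + 2 * ρ) ^ i :=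
          pow_le_pow_left₀ (sn_nonneg hr0.le n _) (by linarith) i
      _ ≤ (1 + 2 * ρ) ^ R.card := pow_le_pow_right₀ (by linarith) hi
      _ ≤ G := hρG
  have h6 : sn r n ((qs R θ)⁻¹ ^ (n + 1)) ≤ (2 * G) ^ (n + 1) :=
    (sn_pow hr0.le n _ _).trans (pow_le_pow_left₀ (sn_nonneg hr0.le n _) h3 _)
  have h7 : ‖Ph R n x i θ‖ * r ^ n ≤ G * (2 ^ (n + 1) * ‖x - θ‖ ^ n) * (2 * G) ^ (n + 1) := by
    refine (coeff_le_sn hr0.le n n le_rfl _).trans ?_
    refine (sn_mul hr0.le n _ _).trans ?_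
    refine mul_le_mul ?_ h6 (sn_nonneg hr0.le n _) (by positivity)
    refine (sn_mul hr0.le n _ _).trans ?_
    exact mul_le_mul h5 h4 (sn_nonneg hr0.le n _) hG0.le
  have h8 : ‖Ph R n x i θ‖ = (‖Ph R n x i θ‖ * r ^ n) * (4 * G ^ 2) ^ n := by
    rw [mul_assoc, ← mul_pow, hr, one_div, inv_mul_cancel₀ (by positivity), one_pow, mul_one]
  rw [h8]
  have h2G : 2 ^ (n + 1) ≤ G ^ (n + 1) := pow_le_pow_left₀ (by norm_num) hG _
  calc (‖Ph R n x i θ‖ * r ^ n) * (4 * G ^ 2) ^ n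
      ≤ (G * (2 ^ (n + 1) * ‖x - θ‖ ^ n) * (2 * G) ^ (n + 1)) * (4 * G ^ 2) ^ n :=
        mul_le_mul_of_nonneg_right h7 (by positivity)
    _ ≤ (G * (G ^ (n + 1) * (G * ‖x‖) ^ n) * (G ^ 2) ^ (n + 1)) * (G ^ 4) ^ n := by
        have e1 : 2 * G ≤ G ^ 2 := by nlinarith
        have e2 : 4 * G ^ 2 ≤ G ^ 4 := by nlinarith [sq_nonneg (G ^ 2)]
        have e3 : ‖x - θ‖ ≤ G * ‖x‖ := hw2.trans (mul_le_mul_of_nonneg_right hG (norm_nonneg _))
        gcongr
    _ = G ^ (1 + (n + 1) + n + 2 * (n + 1) + 4 * n) * ‖x‖ ^ n := by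
        rw [mul_pow, ← pow_mul, ← pow_mul]
        ring
    _ ≤ G ^ (8 * (n + 1)) * ‖x‖ ^ n := by
        refine mul_le_mul_of_nonneg_right ?_ (by positivity)
        exact pow_le_pow_right₀ hG1 (by omega)

/-! ### integrality -/

/-- a common denominator of the first coefficients -/
def Ic (n : ℕ) (c : ℂ) (s : PowerSeries ℂ) : Prop :=
  ∀ k ≤ n, IsIntegral ℤ (c * PowerSeries.coeff k s)

lemma Ic.mul {n : ℕ} {c c' : ℂ} {s s' : PowerSeries ℂ} (h : Ic n c s) (h' : Ic n c' s') :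
    Ic n (c * c') (s * s') := by
  intro k hk
  rw [PowerSeries.coeff_mul, mul_sum]
  refine IsIntegral.sum _ fun ij hij => ?_
  have h1 := mem_antidiagonal.mp hij
  have := (h ij.1 (by omega)).mul (h' ij.2 (by omega))
  convert this using 1
  ring

/-- the weighted denominators -/
def Iw (E : ℂ) (m : ℕ) (s : PowerSeries ℂ) : Prop :=
  ∀ k, IsIntegral ℤ (E ^ (2 * k + m) * PowerSeries.coeff k s)

lemma Iw.mul {E : ℂ} {m m' : ℕ} {s s' : PowerSeries ℂ} (h : Iw E m s) (h' : Iw E m' s') :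
    Iw E (m + m') (s * s') := by
  intro k
  rw [PowerSeries.coeff_mul, mul_sum]
  refine IsIntegral.sum _ fun ij hij => ?_
  have := (h ij.1).mul (h' ij.2)
  convert this using 1
  rw [← mem_antidiagonal.mp hij, show 2 * (ij.1 + ij.2) + (m + m') =
    (2 * ij.1 + m) + (2 * ij.2 + m') by ring, pow_add]
  ring

lemma Iw.pow {E : ℂ} {s : PowerSeries ℂ} (h : Iw E 1 s) (j : ℕ) : Iw E j (s ^ j) := by
  induction j with
  | zero =>
    intro k
    rw [pow_zero, PowerSeries.coeff_one]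
    split_ifs with hk
    · rw [hk, mul_zero, add_zero, pow_zero, mul_one]; exact isIntegral_one
    · rw [mul_zero]; exact isIntegral_zero
  | succ j ih => rw [pow_succ]; exact ih.mul h

lemma Iw_inv {q : PowerSeries ℂ} (hq : PowerSeries.constantCoeff q ≠ 0) {E : ℂ}
    (hE : IsIntegral ℤ E) (h1 : IsIntegral ℤ (E * (PowerSeries.constantCoeff q)⁻¹))
    (h2 : ∀ k, IsIntegral ℤ (E * PowerSeries.coeff k q)) : Iw E 1 q⁻¹ := by
  intro k
  induction k using Nat.strong_induction_on with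
  | _ k ih =>
    rcases k with _ | k
    · rw [inv_zero', mul_zero, zero_add, pow_one]; exact h1
    · rw [inv_rec hq]
      have e : E ^ (2 * (k + 1) + 1) * (-(PowerSeries.constantCoeff q)⁻¹ *
          ∑ ij ∈ antidiagonal k, PowerSeries.coeff (ij.1 + 1) q * PowerSeries.coeff ij.2 q⁻¹) =
          -(E * (PowerSeries.constantCoeff q)⁻¹) * ∑ ij ∈ antidiagonal k,
            (E * PowerSeries.coeff (ij.1 + 1) q) * (E ^ (2 * ij.1) *
              (E ^ (2 * ij.2 + 1) * PowerSeries.coeff ij.2 q⁻¹)) := by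
        rw [mul_sum, mul_sum, mul_sum]
        refine sum_congr rfl fun ij hij => ?_
        rw [← mem_antidiagonal.mp hij, show 2 * (ij.1 + ij.2 + 1) + 1 =
          2 * ij.1 + (2 * ij.2 + 1) + 2 by ring, pow_add, pow_add]
        ring
      rw [e]
      refine h1.neg.mul (IsIntegral.sum _ fun ij hij => ?_)
      have h4 := mem_antidiagonal.mp hij
      exact (h2 _).mul ((hE.pow _).mul (ih _ (by omega)))

lemma Iw.Ic {E : ℂ} (hE : IsIntegral ℤ E) {s : PowerSeries ℂ} {n : ℕ} (h : Iw E (n + 1) s) :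
    Ic n (E ^ (3 * n + 1)) s := by
  intro k hk
  have h1 := (hE.pow (2 * (n - k))).mul (h k)
  have e : E ^ (3 * n + 1) * PowerSeries.coeff k s =
      E ^ (2 * (n - k)) * (E ^ (2 * k + (n + 1)) * PowerSeries.coeff k s) := by
    rw [← mul_assoc, ← pow_add]
    congr 2
    omega
  rw [e]
  exact h1

lemma int_cast_integral (z : ℤ) : IsIntegral ℤ (z : ℂ) := by
  have := isIntegral_algebraMap (R := ℤ) (A := ℂ) (x := z)
  simpa using this

lemma Ic_tay (n : ℕ) {l θ : ℂ} (hl : IsIntegral ℤ l) (hθ : IsIntegral ℤ (l * θ)) {i d : ℕ}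
    (hi : i ≤ d) : Ic n (l ^ d) (tay θ ((Polynomial.X : Polynomial ℂ) ^ i)) := by
  intro k _
  rw [coeff_tay_pow]
  have e : l ^ d * ((i.choose k : ℂ) * θ ^ (i - k)) =
      ((i.choose k : ℤ) : ℂ) * (l ^ (d - (i - k)) * (l * θ) ^ (i - k)) := by
    have : l ^ d = l ^ (d - (i - k)) * l ^ (i - k) := by rw [← pow_add]; congr 1; omega
    rw [this, mul_pow]
    push_cast
    ring
  rw [e]
  exact (int_cast_integral _).mul ((hl.pow _).mul (hθ.pow _))

lemma Ic_Ps (n : ℕ) {l w : ℂ} (hw0 : w ≠ 0) (hl : IsIntegral ℤ l) (hw : IsIntegral ℤ (l * w)) :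
    Ic n (4 ^ n * l ^ n) (Ps n w) := by
  intro k hk
  obtain ⟨z, hz⟩ := cc_int n k
  have hz' : (z : ℂ) = 4 ^ k * (cc n k : ℂ) := by
    have := congrArg (fun q : ℚ => (q : ℂ)) hz
    push_cast at this
    exact this
  rw [coeff_Ps]
  have e : 4 ^ n * l ^ n * ((cc n k : ℂ) * (-1) ^ k * w ^ n * w⁻¹ ^ k) =
      (((4 ^ (n - k) * z * (-1) ^ k : ℤ)) : ℂ) * (l ^ k * (l * w) ^ (n - k)) := by
    have h1 : (4 : ℂ) ^ n = 4 ^ (n - k) * 4 ^ k := by rw [← pow_add]; congr 1; omega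
    have h2 : l ^ n = l ^ k * l ^ (n - k) := by rw [← pow_add]; congr 1; omega
    have h3 : w ^ n * w⁻¹ ^ k = w ^ (n - k) := by
      have : w ^ n = w ^ (n - k) * w ^ k := by rw [← pow_add]; congr 1; omega
      rw [this, mul_assoc, ← mul_pow, mul_inv_cancel₀ hw0, one_pow, mul_one]
    push_cast
    rw [hz', mul_pow, ← h3, h1, h2]
    ring
  rw [e]
  exact (int_cast_integral _).mul ((hl.pow _).mul (hw.pow _))

/-- **The denominator of the coefficients.** -/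
theorem Ph_int (R : Finset ℂ) (n : ℕ) (x : ℂ) (i : ℕ) (hi : i ≤ R.card) {l E : ℂ}
    (hl : IsIntegral ℤ l) (hE : IsIntegral ℤ E) {θ : ℂ} (hxθ : x ≠ θ)
    (hx : IsIntegral ℤ x) (hlθ : IsIntegral ℤ (l * θ))
    (hW : IsIntegral ℤ (E * (GP.Wt R θ)⁻¹))
    (hq : ∀ k, IsIntegral ℤ (E * PowerSeries.coeff k (qs R θ))) :
    IsIntegral ℤ (l ^ R.card * (4 ^ n * l ^ n) * E ^ (3 * n + 1) * Ph R n x i θ) := by
  have h1 := Ic_tay n hl hlθ hi
  have h2 := Ic_Ps n (sub_ne_zero.mpr hxθ) hl (by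
    rw [mul_sub]; exact (hl.mul hx).sub hlθ)
  have h3 : Iw E 1 (qs R θ)⁻¹ := Iw_inv (qs_ne R θ) hE (by rw [qs_zero]; exact hW) hq
  exact ((h1.mul h2).mul (Iw.Ic hE (h3.pow (n + 1)))) n le_rfl

end Pool.Agent.U133.HP
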