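import Pool.Agent.U133.HP.Cst
import Pool.Agent.U133.GP.Main

set_option autoImplicit false

/-!
# The contradiction for two integers of a class
-/

namespace Pool.Agent.U133.HP

open Finset


open Pool.Agent.U133.GP (Rt mem_Rt card_Rt prod_Rt deriv_Rt)

lemma poly_integral {l θ : ℂ} (hl : IsIntegral ℤ l) (hθ : IsIntegral ℤ (l * θ))
    (P : Polynomial ℤ) {m : ℕ} (hP : P.natDegree ≤ m) :
    IsIntegral ℤ (l ^ m * Polynomial.aeval θ P) := by
  rw [Polynomial.aeval_eq_sum_range, mul_sum]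
  refine IsIntegral.sum _ fun k hk => ?_
  have hk' : k ≤ m := by
    have := mem_range.mp hk
    omega
  have e : l ^ m * (P.coeff k • θ ^ k) = (P.coeff k : ℂ) * (l ^ (m - k) * (l * θ) ^ k) := by
    have h1 : l ^ m = l ^ (m - k) * l ^ k := by rw [← pow_add]; congr 1; omega
    rw [h1, mul_pow, zsmul_eq_mul]; ring
  rw [e]
  exact (int_cast_integral _).mul ((hl.pow _).mul (hθ.pow _))

section

variable {f : Polynomial ℤ}

/-- the basic denominator -/
noncomputable def Ed (f : Polynomial ℤ) : ℂ :=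
  ((Polynomial.resultant f (Polynomial.derivative f) f.natDegree (f.natDegree - 1) : ℤ) : ℂ) *
    (f.leadingCoeff : ℂ) ^ f.natDegree

lemma Ed_int (f : Polynomial ℤ) : IsIntegral ℤ (Ed f) :=
  (int_cast_integral _).mul ((int_cast_integral _).pow _)

lemma Ed_ne (hs : (Polynomial.map (Int.castRingHom ℚ) f).Separable) (hf : f ≠ 0) (hd : 1 ≤ f.natDegree) : Ed f ≠ 0 := by
  have h1 := GP.res_ne hs hd
  have h2 := Polynomial.leadingCoeff_ne_zero.mpr hf
  rw [Ed]
  exact mul_ne_zero (by exact_mod_cast h1) (pow_ne_zero _ (by exact_mod_cast h2))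

lemma l_root (hf : f ≠ 0) {θ : ℂ} (hθ : θ ∈ Rt f) :
    IsIntegral ℤ ((f.leadingCoeff : ℂ) * θ) := by
  have := isIntegral_leadingCoeff_smul f θ ((mem_Rt hf).mp hθ)
  rwa [zsmul_eq_mul] at this

lemma Ed_W (hs : (Polynomial.map (Int.castRingHom ℚ) f).Separable) (hf : f ≠ 0) (hd : 1 ≤ f.natDegree) {θ : ℂ} (hθ : θ ∈ Rt f) :
    IsIntegral ℤ (Ed f * (GP.Wt (Rt f) θ)⁻¹) := by
  have h1 := GP.int_W hs hf hd hθ
  have h2 : Ed f * (GP.Wt (Rt f) θ)⁻¹ = (f.leadingCoeff : ℂ) *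
      (((Polynomial.resultant f (Polynomial.derivative f) f.natDegree (f.natDegree - 1) : ℤ) : ℂ) *
      (f.leadingCoeff : ℂ) ^ (f.natDegree - 1) / GP.Wt (Rt f) θ) := by
    have h3 : (f.leadingCoeff : ℂ) ^ f.natDegree = (f.leadingCoeff : ℂ) *
        (f.leadingCoeff : ℂ) ^ (f.natDegree - 1) := by
      rw [← pow_succ']; congr 1; omega
    rw [Ed, h3, div_eq_mul_inv]
    ring
  rw [h2]
  exact (int_cast_integral _).mul h1

lemma Ed_qs (hs : (Polynomial.map (Int.castRingHom ℚ) f).Separable) (hf : f ≠ 0) (hd : 1 ≤ f.natDegree) {θ : ℂ} (hθ : θ ∈ Rt f)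
    (k : ℕ) : IsIntegral ℤ (Ed f * PowerSeries.coeff k (qs (Rt f) θ)) := by
  have hlC : (f.leadingCoeff : ℂ) ≠ 0 := by
    exact_mod_cast (Polynomial.leadingCoeff_ne_zero.mpr hf)
  rw [qs_coeff hs hf hθ]
  have h2 : Ed f * ((f.leadingCoeff : ℂ)⁻¹ *
      Polynomial.aeval θ (Polynomial.hasseDeriv (k + 1) f)) =
      ((Polynomial.resultant f (Polynomial.derivative f) f.natDegree (f.natDegree - 1) : ℤ) : ℂ) *
      ((f.leadingCoeff : ℂ) ^ (f.natDegree - 1) *
        Polynomial.aeval θ (Polynomial.hasseDeriv (k + 1) f)) := by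
    have h3 : (f.leadingCoeff : ℂ) ^ f.natDegree = (f.leadingCoeff : ℂ) *
        (f.leadingCoeff : ℂ) ^ (f.natDegree - 1) := by
      rw [← pow_succ']; congr 1; omega
    rw [Ed, h3]
    field_simp
  rw [h2]
  refine (int_cast_integral _).mul (poly_integral (int_cast_integral _) (l_root hf hθ) _ ?_)
  have := Polynomial.natDegree_hasseDeriv_le f (k + 1)
  omega

end

lemma int_zero {Z : ℂ} (hI : IsIntegral ℤ Z) (hq : ∃ q : ℚ, Z ^ 2 = (q : ℂ)) (h : ‖Z‖ ^ 2 < 1) :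
    Z = 0 := by
  obtain ⟨w, hw⟩ := hq
  have hwI : IsIntegral ℤ w := by
    have h1 : IsIntegral ℤ (algebraMap ℚ ℂ w) := by
      rw [eq_ratCast, ← hw]; exact hI.pow 2
    exact (isIntegral_algebraMap_iff (algebraMap ℚ ℂ).injective).mp h1
  obtain ⟨z, hz⟩ := IsIntegrallyClosed.isIntegral_iff.mp hwI
  have hz' : (z : ℚ) = w := by simpa using hz
  have hzC : Z ^ 2 = (z : ℂ) := by
    rw [hw, ← hz']; push_cast; rfl
  have h2 : |(z : ℝ)| < 1 := by
    have h3 := congrArg norm hzC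
    rw [norm_pow, Complex.norm_intCast] at h3
    rw [← h3]; exact h
  have hz0 : z = 0 := by
    have h1 : |z| < 1 := by
      have : ((|z| : ℤ) : ℝ) < ((1 : ℤ) : ℝ) := by push_cast; exact h2
      exact_mod_cast this
    exact Int.abs_lt_one_iff.mp h1
  rw [hz0, Int.cast_zero] at hzC
  exact pow_eq_zero_iff (two_ne_zero) |>.mp hzC

/-! ### the branch -/

lemma vv_ne {x θ : ℂ} (h : ‖θ‖ < ‖x‖) : vv x θ ≠ 0 := by
  intro h0
  have h1 := vv_sq (x := x) (θ := θ)
  rw [h0] at h1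
  exact one_sub_ne h (by rw [← h1]; ring)

lemma vv_re (x θ : ℂ) (h : ‖θ‖ < ‖x‖) : 0 ≤ (vv x θ).re := by
  rw [vv, Complex.cpow_def_of_ne_zero (one_sub_ne h), Complex.exp_re]
  refine mul_nonneg (Real.exp_pos _).le (Real.cos_nonneg_of_mem_Icc ?_)
  have e : (Complex.log (1 - θ / x) * (1 / 2)).im = Complex.arg (1 - θ / x) / 2 := by
    have h2 : Complex.log (1 - θ / x) * (1 / 2) = ((1 / 2 : ℝ) : ℂ) * Complex.log (1 - θ / x) := by
      push_cast; ring
    rw [h2, Complex.im_ofReal_mul, Complex.log_im]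
    ring
  rw [e]
  have h1 := Complex.neg_pi_lt_arg (1 - θ / x)
  have h2 := Complex.arg_le_pi (1 - θ / x)
  constructor <;> linarith

lemma vv_le {x θ : ℂ} (h : ‖θ‖ < ‖x‖) : ‖vv x θ‖ ≤ 2 := by
  have hx0 : 0 < ‖x‖ := (norm_nonneg _).trans_lt h
  have h1 : ‖vv x θ‖ ^ 2 ≤ 2 := by
    rw [← norm_pow, vv_sq]
    refine (norm_sub_le _ _).trans ?_
    rw [norm_one, norm_div]
    have : ‖θ‖ / ‖x‖ ≤ 1 := (div_le_one hx0).mpr h.le
    linarith
  nlinarith [norm_nonneg (vv x θ)]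

lemma vv_sub_one {x θ : ℂ} (h : ‖θ‖ < ‖x‖) : ‖vv x θ - 1‖ ≤ ‖θ‖ / ‖x‖ := by
  have h1 := vv_sq (x := x) (θ := θ)
  have h2 : (vv x θ - 1) * (vv x θ + 1) = -(θ / x) := by linear_combination h1
  have h3 : 1 ≤ ‖vv x θ + 1‖ := by
    refine le_trans ?_ (Complex.re_le_norm _)
    rw [Complex.add_re, Complex.one_re]
    linarith [vv_re x θ h]
  have h4 := congrArg norm h2
  rw [norm_mul, norm_neg, norm_div] at h4
  rw [← h4]
  exact le_mul_of_one_le_right (norm_nonneg _) h3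

lemma t_small {G a t : ℝ} {n K : ℕ} (hG : 1 ≤ G) (ht0 : 0 ≤ t) (ht : t ^ 2 * a ^ n ≤ 1)
    (ha : G ^ (2 * K) ≤ a) : t * G ^ (K * n) ≤ 1 := by
  have hG0 : 0 < G := by linarith
  have h1 : (t * G ^ (K * n)) ^ 2 ≤ 1 := by
    calc (t * G ^ (K * n)) ^ 2 = t ^ 2 * (G ^ (2 * K)) ^ n := by
          rw [mul_pow, ← pow_mul, ← pow_mul]; congr 2; ring
      _ ≤ t ^ 2 * a ^ n :=
          mul_le_mul_of_nonneg_left (pow_le_pow_left₀ (by positivity) ha n) (by positivity)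
      _ ≤ 1 := ht
  have h0 : 0 ≤ t * G ^ (K * n) := by positivity
  nlinarith

/-- **Two integers at a large distance.** -/
theorem contra2 {f : Polynomial ℤ} (hf : f ≠ 0) (hs : (Polynomial.map (Int.castRingHom ℚ) f).Separable) (hd : 1 ≤ f.natDegree)
    {G ρ : ℝ} (hG4 : 4 ≤ G) (hdG : (f.natDegree : ℝ) ≤ G) (hρ : 1 / 2 ≤ ρ)
    (hρG : (1 + 2 * ρ) ^ f.natDegree ≤ G) (hlG : |(f.leadingCoeff : ℝ)| ≤ G)
    (hroot : ∀ θ ∈ Rt f, ‖θ‖ ≤ ρ) (hW : ∀ θ ∈ Rt f, ‖(GP.Wt (Rt f) θ)⁻¹‖ ≤ G)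
    (hE : |((Polynomial.resultant f (Polynomial.derivative f) f.natDegree
      (f.natDegree - 1) : ℤ) : ℝ)| * |(f.leadingCoeff : ℝ)| ^ f.natDegree ≤ G)
    (x y : ℤ) {a b : ℝ} (hxa : |(x : ℝ)| = a) (hyb : |(y : ℝ)| = b) (n : ℕ) (hn : 1 ≤ n)
    (haρ : 4 * ρ ≤ a) (hab : a ≤ b)
    (ht1 : (b * a * a ^ (2 * n) / a ^ (2 * (f.natDegree * n))) ^ 2 * a ^ n ≤ 1)
    (ht2 : (a ^ (2 * n + 1) / b) ^ 2 * a ^ n ≤ 1)
    (ha : G ^ (2 * (8 * f.natDegree + 66)) ≤ a)
    (hrat : ∀ P : Polynomial ℚ, ∃ q : ℚ,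
      (∑ θ ∈ Rt f, vv x θ * vv y θ * Polynomial.aeval θ P) ^ 2 = (q : ℂ)) : False := by
  set d := f.natDegree with hdd
  have hcard : (Rt f).card = d := card_Rt hs
  have hG1 : 1 ≤ G := by linarith
  have hG0 : 0 < G := by linarith
  have ha0 : 0 < a := by linarith
  have ha1 : 1 ≤ a := by linarith
  have hb0 : 0 < b := by linarith
  have hxn : ‖(x : ℂ)‖ = a := by rw [Complex.norm_intCast]; exact hxa
  have hyn : ‖(y : ℂ)‖ = b := by rw [Complex.norm_intCast]; exact hyb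
  have hltx : ∀ θ ∈ Rt f, ‖θ‖ < ‖(x : ℂ)‖ := fun θ h => by
    rw [hxn]; exact (hroot θ h).trans_lt (by linarith)
  have hlty : ∀ θ ∈ Rt f, ‖θ‖ < ‖(y : ℂ)‖ := fun θ h => by
    rw [hyn]; exact (hroot θ h).trans_lt (by linarith)
  have hxne : ∀ θ ∈ Rt f, (x : ℂ) ≠ θ := fun θ h e => by
    have := hltx θ h
    rw [← e] at this
    exact lt_irrefl _ this
  set l : ℂ := (f.leadingCoeff : ℂ) with hl
  have hln : ‖l‖ ≤ G := by rw [hl, Complex.norm_intCast]; exact hlG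
  have hEn : ‖Ed f‖ ≤ G := by
    rw [Ed, norm_mul, norm_pow, Complex.norm_intCast, Complex.norm_intCast]; exact hE
  obtain ⟨s, hs2⟩ := IsAlgClosed.exists_pow_nat_eq ((x : ℂ) * y) (n := 2) (by norm_num)
  have hsn : ‖s‖ ^ 2 = a * b := by rw [← norm_pow, hs2, norm_mul, hxn, hyn]
  have hx0 : (x : ℂ) ≠ 0 := by
    rw [← norm_pos_iff, hxn]; exact ha0
  have hy0 : (y : ℂ) ≠ 0 := by
    rw [← norm_pos_iff, hyn]; exact hb0
  have hs0 : s ≠ 0 := by
    intro h
    rw [h] at hs2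
    exact mul_ne_zero hx0 hy0 (by rw [← hs2]; ring)
  have hl0 : l ≠ 0 := by
    rw [hl]; exact_mod_cast (Polynomial.leadingCoeff_ne_zero.mpr hf)
  -- all the linear forms vanish
  have hall : ∀ i < (Rt f).card, La (Rt f) n x (fun θ => vv x θ * vv y θ) ((Polynomial.X : Polynomial ℂ) ^ i) = 0 := by
    intro i hi
    rw [La_pow_eq]
    set T := ∑ θ ∈ Rt f, vv x θ * vv y θ * Ph (Rt f) n x i θ with hT
    set c₀ : ℂ := l ^ (Rt f).card * (4 ^ n * l ^ n) * Ed f ^ (3 * n + 1) with hc₀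
    set Z : ℂ := c₀ * (l * s) * T with hZ
    have hZI : IsIntegral ℤ Z := by
      have e : Z = ∑ θ ∈ Rt f, (c₀ * Ph (Rt f) n x i θ) * (l * (s * (vv x θ * vv y θ))) := by
        rw [hZ, hT, mul_sum]
        refine sum_congr rfl fun θ _ => ?_
        ring
      rw [e]
      refine IsIntegral.sum _ fun θ hθ => ?_
      refine (Ph_int (Rt f) n x i hi.le (int_cast_integral _) (Ed_int f) (hxne θ hθ)
        (int_cast_integral _) (l_root hf hθ) (Ed_W hs hf hd hθ) (Ed_qs hs hf hd hθ)).mul ?_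
      apply IsIntegral.of_pow (n := 2) (by norm_num)
      have e2 : (l * (s * (vv x θ * vv y θ))) ^ 2 = (l * x - l * θ) * (l * y - l * θ) := by
        rw [mul_pow, mul_pow, mul_pow, hs2, vv_sq, vv_sq]
        field_simp
      rw [e2]
      exact (((int_cast_integral _).mul (int_cast_integral _)).sub (l_root hf hθ)).mul
        (((int_cast_integral _).mul (int_cast_integral _)).sub (l_root hf hθ))
    have hZq : ∃ q : ℚ, Z ^ 2 = (q : ℂ) := by
      obtain ⟨P, hP⟩ := Ra_Ph hs hf n x hxne i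
      obtain ⟨q, hq⟩ := hrat P
      have hT2 : T ^ 2 = (q : ℂ) := by
        rw [← hq, hT]
        congr 1
        exact sum_congr rfl fun θ hθ => by rw [hP θ hθ]
      refine ⟨((f.leadingCoeff : ℚ) ^ (Rt f).card * (4 ^ n * (f.leadingCoeff : ℚ) ^ n) *
        (((Polynomial.resultant f (Polynomial.derivative f) f.natDegree
          (f.natDegree - 1) : ℤ) : ℚ) * (f.leadingCoeff : ℚ) ^ f.natDegree) ^ (3 * n + 1)) ^ 2 *
        ((f.leadingCoeff : ℚ) ^ 2 * (x * y)) * q, ?_⟩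
      rw [hZ, mul_pow, mul_pow, hT2, mul_pow l, hs2, hc₀, Ed, hl]
      push_cast
      ring
    have hTn : ‖T‖ ≤ G ^ ((d + 10) * (n + 1)) * (a ^ n / a ^ (d * n) + a ^ n / b) := by
      have h1 := rem_bound (Rt f) (by omega) n x hρ hroot (by rw [hxn]; exact haρ) i hi
      rw [hcard, hxn] at h1
      have e : T = (∑ θ ∈ Rt f, vv x θ * Ph (Rt f) n x i θ) +
          ∑ θ ∈ Rt f, vv x θ * (vv y θ - 1) * Ph (Rt f) n x i θ := by
        rw [hT, ← sum_add_distrib]
        exact sum_congr rfl fun θ _ => by ring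
      have h2 : ‖∑ θ ∈ Rt f, vv x θ * Ph (Rt f) n x i θ‖ ≤
          G ^ ((d + 10) * (n + 1)) * (a ^ n / a ^ (d * n)) := by
        rw [← mul_div_assoc, le_div_iff₀ (by positivity)]
        refine h1.trans ?_
        refine mul_le_mul_of_nonneg_right ?_ (by positivity)
        calc (2 : ℝ) ^ (n + d * (n + 1) + 1) ≤ G ^ (n + d * (n + 1) + 1) :=
              pow_le_pow_left₀ (by norm_num) (by linarith) _
          _ ≤ _ := pow_le_pow_right₀ hG1 (by nlinarith)
      have h3 : ‖∑ θ ∈ Rt f, vv x θ * (vv y θ - 1) * Ph (Rt f) n x i θ‖ ≤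
          G ^ ((d + 10) * (n + 1)) * (a ^ n / b) := by
        have h2ρ : 2 * ρ ≤ G := by
          have h4 : 1 + 2 * ρ ≤ (1 + 2 * ρ) ^ d := by
            have := pow_le_pow_right₀ (a := 1 + 2 * ρ) (by linarith) hd
            rwa [pow_one] at this
          linarith
        have h5 : ∀ θ ∈ Rt f, ‖vv x θ * (vv y θ - 1) * Ph (Rt f) n x i θ‖ ≤
            G ^ (8 * (n + 1) + 1) * (a ^ n / b) := by
          intro θ hθ
          have h6 := vv_le (hltx θ hθ)
          have h7 := vv_sub_one (hlty θ hθ)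
          have h8 := Ph_size (Rt f) n x i hroot (by linarith : (2 : ℝ) ≤ G)
            (by rw [hcard]; exact hρG) hi.le hW hθ (by rw [hxn]; linarith)
          rw [hxn] at h8
          rw [hyn] at h7
          have h9 : ‖vv y θ - 1‖ ≤ ρ / b :=
            h7.trans (div_le_div_of_nonneg_right (hroot θ hθ) hb0.le)
          rw [norm_mul, norm_mul]
          calc ‖vv x θ‖ * ‖vv y θ - 1‖ * ‖Ph (Rt f) n x i θ‖
              ≤ 2 * (ρ / b) * (G ^ (8 * (n + 1)) * a ^ n) := by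
                refine mul_le_mul (mul_le_mul h6 h9 (norm_nonneg _) (by norm_num)) h8
                  (norm_nonneg _) (by positivity)
            _ = (2 * ρ) * (G ^ (8 * (n + 1)) * (a ^ n / b)) := by ring
            _ ≤ G * (G ^ (8 * (n + 1)) * (a ^ n / b)) :=
                mul_le_mul_of_nonneg_right h2ρ (by positivity)
            _ = _ := by rw [pow_succ]; ring
        refine (norm_sum_le_of_le _ h5).trans ?_
        rw [sum_const, hcard, nsmul_eq_mul]
        calc (d : ℝ) * (G ^ (8 * (n + 1) + 1) * (a ^ n / b))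
            ≤ G * (G ^ (8 * (n + 1) + 1) * (a ^ n / b)) :=
              mul_le_mul_of_nonneg_right hdG (by positivity)
          _ = G ^ (8 * (n + 1) + 2) * (a ^ n / b) := by
              rw [pow_succ G (8 * (n + 1) + 1)]; ring
          _ ≤ _ := by
              refine mul_le_mul_of_nonneg_right ?_ (by positivity)
              exact pow_le_pow_right₀ hG1 (by nlinarith)
      rw [e, mul_add]
      exact (norm_add_le _ _).trans (add_le_add h2 h3)
    have hcn : ‖c₀ * l‖ ≤ G ^ ((d + 6) * (n + 1)) := by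
      rw [hc₀, hcard]
      have e : ‖l ^ d * (4 ^ n * l ^ n) * Ed f ^ (3 * n + 1) * l‖ =
          ‖l‖ ^ d * (4 ^ n * ‖l‖ ^ n) * ‖Ed f‖ ^ (3 * n + 1) * ‖l‖ := by
        simp only [norm_mul, norm_pow]
        norm_num
      rw [e]
      calc ‖l‖ ^ d * (4 ^ n * ‖l‖ ^ n) * ‖Ed f‖ ^ (3 * n + 1) * ‖l‖
          ≤ G ^ d * (G ^ n * G ^ n) * G ^ (3 * n + 1) * G := by gcongr
        _ = G ^ (d + (n + n) + (3 * n + 1) + 1) := by
            ring
        _ ≤ _ := pow_le_pow_right₀ hG1 (by nlinarith)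
    set t₁ := b * a * a ^ (2 * n) / a ^ (2 * (d * n)) with ht₁
    set t₂ := a ^ (2 * n + 1) / b with ht₂
    have hs1 := t_small (K := 8 * d + 66) hG1 (by positivity : 0 ≤ t₁) ht1 ha
    have hs2' := t_small (K := 8 * d + 66) hG1 (by positivity : 0 ≤ t₂) ht2 ha
    have hsmall : ‖Z‖ ^ 2 < 1 := by
      have e : ‖Z‖ ^ 2 = ‖c₀ * l‖ ^ 2 * (a * b) * ‖T‖ ^ 2 := by
        rw [hZ, ← mul_assoc, norm_mul, norm_mul, mul_pow, mul_pow, hsn]
      rw [e]
      set A := (d + 6) * (n + 1) with hA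
      set B := (d + 10) * (n + 1) with hB
      have h1 : ‖c₀ * l‖ ^ 2 ≤ (G ^ A) ^ 2 := pow_le_pow_left₀ (norm_nonneg _) hcn 2
      have h2 : ‖T‖ ^ 2 ≤ (G ^ B * (a ^ n / a ^ (d * n) + a ^ n / b)) ^ 2 :=
        pow_le_pow_left₀ (norm_nonneg _) hTn 2
      have h3 : (a * b) * (a ^ n / a ^ (d * n) + a ^ n / b) ^ 2 ≤ 2 * (t₁ + t₂) := by
        have e1 : (a * b) * (a ^ n / a ^ (d * n)) ^ 2 = t₁ := by
          rw [ht₁, div_pow, ← pow_mul, ← pow_mul, mul_comm n 2, mul_comm (d * n) 2]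
          ring
        have e2 : (a * b) * (a ^ n / b) ^ 2 = t₂ := by
          rw [ht₂, div_pow, ← pow_mul, mul_comm n 2, pow_succ a (2 * n)]
          field_simp
        rw [← e1, ← e2]
        have : (a ^ n / a ^ (d * n) + a ^ n / b) ^ 2 ≤
            2 * ((a ^ n / a ^ (d * n)) ^ 2 + (a ^ n / b) ^ 2) := by
          nlinarith [sq_nonneg (a ^ n / a ^ (d * n) - a ^ n / b)]
        have h9 : 0 ≤ a * b := by positivity
        nlinarith
      have hexp : 2 * A + 2 * B + 2 ≤ (8 * d + 66) * n := by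
        rw [hA, hB]
        obtain ⟨m, rfl⟩ : ∃ m, n = m + 1 := ⟨n - 1, by omega⟩
        nlinarith
      have h4 : G ^ (2 * A + 2 * B) * 16 ≤ G ^ ((8 * d + 66) * n) := by
        calc G ^ (2 * A + 2 * B) * 16 ≤ G ^ (2 * A + 2 * B) * G ^ 2 := by
              refine mul_le_mul_of_nonneg_left ?_ (by positivity)
              nlinarith
          _ = G ^ (2 * A + 2 * B + 2) := by rw [← pow_add]
          _ ≤ _ := pow_le_pow_right₀ hG1 hexp
      set U := G ^ ((8 * d + 66) * n) with hU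
      have hU0 : 0 < U := by positivity
      have h5 : (t₁ + t₂) * U ≤ 2 := by nlinarith
      calc ‖c₀ * l‖ ^ 2 * (a * b) * ‖T‖ ^ 2
          ≤ (G ^ A) ^ 2 * (a * b) * (G ^ B * (a ^ n / a ^ (d * n) + a ^ n / b)) ^ 2 := by
            refine mul_le_mul ?_ h2 (by positivity) (by positivity)
            exact mul_le_mul_of_nonneg_right h1 (by positivity)
        _ = G ^ (2 * A + 2 * B) * ((a * b) * (a ^ n / a ^ (d * n) + a ^ n / b) ^ 2) := by
            rw [mul_pow (G ^ B), ← pow_mul, ← pow_mul, pow_add, mul_comm A 2, mul_comm B 2]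
            ring
        _ ≤ G ^ (2 * A + 2 * B) * (2 * (t₁ + t₂)) :=
            mul_le_mul_of_nonneg_left h3 (by positivity)
        _ < 1 := by
            have ht0 : 0 ≤ t₁ + t₂ := by positivity
            have h6 : G ^ (2 * A + 2 * B) * 16 * (t₁ + t₂) ≤ 2 := by
              refine le_trans ?_ h5
              rw [mul_comm (t₁ + t₂)]
              exact mul_le_mul_of_nonneg_right h4 ht0
            nlinarith
    have hZ0 := int_zero hZI hZq hsmall
    rw [hZ] at hZ0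
    have hc0 : c₀ ≠ 0 := by
      rw [hc₀]
      exact mul_ne_zero (mul_ne_zero (pow_ne_zero _ hl0) (mul_ne_zero (by norm_num)
        (pow_ne_zero _ hl0))) (pow_ne_zero _ (Ed_ne hs hf hd))
    rcases mul_eq_zero.mp hZ0 with h | h
    · exact absurd h (mul_ne_zero hc0 (mul_ne_zero hl0 hs0))
    · exact h
  have hz := zero_estimate (Rt f) (by omega) n x hxne _ hall
  obtain ⟨θ, hθ⟩ : (Rt f).Nonempty := card_pos.mp (by omega)
  have := hz θ hθ
  exact mul_ne_zero (vv_ne (hltx θ hθ)) (vv_ne (hlty θ hθ)) this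

end Pool.Agent.U133.HP
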