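import Pool.Agent.U133.HP.Loc

set_option autoImplicit false

/-!
# The zero estimate
-/

namespace Pool.Agent.U133.HP

open Finset


/-- the functional -/
noncomputable def La (R : Finset ℂ) (n : ℕ) (x : ℂ) (γ : ℂ → ℂ) (p : Polynomial ℂ) : ℂ :=
  ∑ θ ∈ R, γ θ * PowerSeries.coeff n (tay θ p * Ps n (x - θ) * (qs R θ)⁻¹ ^ (n + 1))

lemma La_add (R : Finset ℂ) (n : ℕ) (x : ℂ) (γ : ℂ → ℂ) (p q : Polynomial ℂ) :
    La R n x γ (p + q) = La R n x γ p + La R n x γ q := by
  rw [La, La, La, ← sum_add_distrib]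
  refine sum_congr rfl fun θ _ => ?_
  rw [map_add (tay θ), add_mul, add_mul, map_add, mul_add]

lemma La_C_mul (R : Finset ℂ) (n : ℕ) (x : ℂ) (γ : ℂ → ℂ) (c : ℂ) (p : Polynomial ℂ) :
    La R n x γ ((Polynomial.C : ℂ →+* Polynomial ℂ) c * p) = c * La R n x γ p := by
  rw [La, La, mul_sum]
  refine sum_congr rfl fun θ _ => ?_
  rw [map_mul (tay θ), tay_C, mul_assoc, mul_assoc, PowerSeries.coeff_C_mul, mul_assoc]
  ring

/-- the functional as a linear map -/
noncomputable def Ll (R : Finset ℂ) (n : ℕ) (x : ℂ) (γ : ℂ → ℂ) : Polynomial ℂ →ₗ[ℂ] ℂ where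
  toFun := La R n x γ
  map_add' := La_add R n x γ
  map_smul' c p := by
    rw [Polynomial.smul_eq_C_mul, La_C_mul]; rfl

/-- the exact forms -/
noncomputable def Qp (R : Finset ℂ) (n : ℕ) (x : ℂ) (p : Polynomial ℂ) : Polynomial ℂ :=
  (Polynomial.derivative p * ((Polynomial.C : ℂ →+* Polynomial ℂ) x - (Polynomial.X : Polynomial ℂ)) - (Polynomial.C : ℂ →+* Polynomial ℂ) ((n : ℂ) + 3 / 2) * p) * Mp R -
    (Polynomial.C : ℂ →+* Polynomial ℂ) (n : ℂ) * p * ((Polynomial.C : ℂ →+* Polynomial ℂ) x - (Polynomial.X : Polynomial ℂ)) * Polynomial.derivative (Mp R)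

lemma La_Qp (R : Finset ℂ) (n : ℕ) (x : ℂ) (hx : ∀ θ ∈ R, x ≠ θ) (γ : ℂ → ℂ)
    (p : Polynomial ℂ) : La R n x γ (Qp R n x p) = 0 := by
  rw [La]
  refine sum_eq_zero fun θ hθ => ?_
  have hw : x - θ ≠ 0 := sub_ne_zero.mpr (hx θ hθ)
  have ho := Ps_ode n hw
  have h := res_der (tay θ p * (((PowerSeries.C : ℂ →+* PowerSeries ℂ) (x - θ) - (PowerSeries.X : PowerSeries ℂ)) * Ps n (x - θ))) (qs R θ) (qs_ne R θ) n
  rw [← tay_Mp hθ, dd_tay, Derivation.leibniz, Derivation.leibniz, dd_tay, map_sub (PowerSeries.derivative ℂ),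
    PowerSeries.derivative_C, PowerSeries.derivative_X] at h
  simp only [smul_eq_mul] at h
  have h2 : tay θ (Qp R n x p) * Ps n (x - θ) * (qs R θ)⁻¹ ^ (n + 1) =
      ((tay θ p * (((PowerSeries.C : ℂ →+* PowerSeries ℂ) (x - θ) - (PowerSeries.X : PowerSeries ℂ)) * (PowerSeries.derivative ℂ) (Ps n (x - θ)) + Ps n (x - θ) * (0 - 1)) +
        ((PowerSeries.C : ℂ →+* PowerSeries ℂ) (x - θ) - (PowerSeries.X : PowerSeries ℂ)) * Ps n (x - θ) * tay θ (Polynomial.derivative p)) * tay θ (Mp R) -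
        (n : PowerSeries ℂ) * (tay θ p * (((PowerSeries.C : ℂ →+* PowerSeries ℂ) (x - θ) - (PowerSeries.X : PowerSeries ℂ)) * Ps n (x - θ))) *
          tay θ (Polynomial.derivative (Mp R))) * (qs R θ)⁻¹ ^ (n + 1) := by
    rw [ho, Qp]
    have e1 : (PowerSeries.C : ℂ →+* PowerSeries ℂ) ((n : ℂ) + 3 / 2) = (PowerSeries.C : ℂ →+* PowerSeries ℂ) ((n : ℂ) + 1 / 2) + 1 := by
      rw [← map_one (PowerSeries.C : ℂ →+* PowerSeries ℂ), ← map_add]; congr 1; ring
    simp only [map_sub (tay θ), map_mul (tay θ), tay_C, tay_X]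
    rw [e1, map_sub (PowerSeries.C : ℂ →+* PowerSeries ℂ), map_natCast (PowerSeries.C : ℂ →+* PowerSeries ℂ)]
    ring
  rw [h2, h, mul_zero]

lemma Qp_natDegree (R : Finset ℂ) (n : ℕ) (x : ℂ) (m : ℕ) :
    (Qp R n x ((Polynomial.X : Polynomial ℂ) ^ m)).natDegree ≤ m + R.card := by
  have hM := Mp_natDegree R
  have hX : ((Polynomial.C : ℂ →+* Polynomial ℂ) x - (Polynomial.X : Polynomial ℂ)).natDegree ≤ 1 := by
    refine (Polynomial.natDegree_sub_le _ _).trans ?_
    simp
  rw [Qp]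
  refine (Polynomial.natDegree_sub_le _ _).trans ?_
  apply max_le
  · refine Polynomial.natDegree_mul_le.trans ?_
    rw [hM]
    apply Nat.add_le_add_right
    refine (Polynomial.natDegree_sub_le _ _).trans ?_
    apply max_le
    · rcases m with _ | m
      · simp
      · refine Polynomial.natDegree_mul_le.trans ?_
        have := Polynomial.natDegree_derivative_le ((Polynomial.X : Polynomial ℂ) ^ (m + 1))
        rw [Polynomial.natDegree_X_pow] at this
        omega
    · refine Polynomial.natDegree_mul_le.trans ?_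
      rw [Polynomial.natDegree_C, Polynomial.natDegree_X_pow, zero_add]
  · have h1 := Polynomial.natDegree_derivative_le (Mp R)
    rw [hM] at h1
    rcases Nat.eq_zero_or_pos R.card with h0 | h0
    · have : Polynomial.derivative (Mp R) = 0 := by
        rw [card_eq_zero] at h0
        rw [Mp, h0, prod_empty, Polynomial.derivative_one]
      rw [this, mul_zero, Polynomial.natDegree_zero]
      omega
    · refine Polynomial.natDegree_mul_le.trans ?_
      have h2 : ((Polynomial.C : ℂ →+* Polynomial ℂ) (n : ℂ) * (Polynomial.X : Polynomial ℂ) ^ m * ((Polynomial.C : ℂ →+* Polynomial ℂ) x - (Polynomial.X : Polynomial ℂ))).natDegree ≤ m + 1 := by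
        refine Polynomial.natDegree_mul_le.trans ?_
        apply add_le_add _ hX
        refine Polynomial.natDegree_mul_le.trans ?_
        rw [Polynomial.natDegree_C, Polynomial.natDegree_X_pow, zero_add]
      omega

lemma Qp_coeff (R : Finset ℂ) (hR : 1 ≤ R.card) (n : ℕ) (x : ℂ) (m : ℕ) :
    (Qp R n x ((Polynomial.X : Polynomial ℂ) ^ m)).coeff (m + R.card) = (n : ℂ) * R.card - m - n - 3 / 2 := by
  have hM := Mp_natDegree R
  have hMc : (Mp R).coeff R.card = 1 := by
    rw [← hM]; exact Mp_monic R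
  have hX : ((Polynomial.C : ℂ →+* Polynomial ℂ) x - (Polynomial.X : Polynomial ℂ)).natDegree ≤ 1 := by
    refine (Polynomial.natDegree_sub_le _ _).trans ?_
    simp
  have hXc : ((Polynomial.C : ℂ →+* Polynomial ℂ) x - (Polynomial.X : Polynomial ℂ)).coeff 1 = -1 := by
    rw [Polynomial.coeff_sub, Polynomial.coeff_C, Polynomial.coeff_X_one]; simp
  have hD := Polynomial.natDegree_derivative_le (Mp R)
  rw [hM] at hD
  have hDc : (Polynomial.derivative (Mp R)).coeff (R.card - 1) = R.card := by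
    rw [Polynomial.coeff_derivative, show R.card - 1 + 1 = R.card by omega, hMc, one_mul,
      Nat.cast_sub hR]
    push_cast; ring
  rw [Qp, Polynomial.coeff_sub, Polynomial.coeff_mul_add_eq_of_natDegree_le _ hM.le, hMc, mul_one]
  · have h1 : m + R.card = (m + 1) + (R.card - 1) := by omega
    rw [h1, Polynomial.coeff_mul_add_eq_of_natDegree_le _ hD, hDc,
      Polynomial.coeff_mul_add_eq_of_natDegree_le _ hX, hXc]
    · rw [Polynomial.coeff_sub, Polynomial.coeff_C_mul, Polynomial.coeff_C_mul,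
        Polynomial.coeff_X_pow_self]
      have h2 : (Polynomial.derivative ((Polynomial.X : Polynomial ℂ) ^ m) * ((Polynomial.C : ℂ →+* Polynomial ℂ) x - (Polynomial.X : Polynomial ℂ))).coeff m = -(m : ℂ) := by
        rcases m with _ | m
        · simp
        · rw [Polynomial.coeff_mul_add_eq_of_natDegree_le _ hX, hXc]
          · rw [Polynomial.coeff_derivative, Polynomial.coeff_X_pow_self]
            push_cast; ring
          · have := Polynomial.natDegree_derivative_le ((Polynomial.X : Polynomial ℂ) ^ (m + 1))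
            rw [Polynomial.natDegree_X_pow] at this
            omega
      rw [h2]
      ring
    · refine Polynomial.natDegree_mul_le.trans ?_
      rw [Polynomial.natDegree_C, Polynomial.natDegree_X_pow, zero_add]
    · refine Polynomial.natDegree_mul_le.trans ?_
      apply add_le_add _ hX
      refine Polynomial.natDegree_mul_le.trans ?_
      rw [Polynomial.natDegree_C, Polynomial.natDegree_X_pow, zero_add]
  · refine (Polynomial.natDegree_sub_le _ _).trans ?_
    apply max_le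
    · rcases m with _ | m
      · simp
      · refine Polynomial.natDegree_mul_le.trans ?_
        have := Polynomial.natDegree_derivative_le ((Polynomial.X : Polynomial ℂ) ^ (m + 1))
        rw [Polynomial.natDegree_X_pow] at this
        omega
    · refine Polynomial.natDegree_mul_le.trans ?_
      rw [Polynomial.natDegree_C, Polynomial.natDegree_X_pow, zero_add]

lemma half_ne (a b c : ℕ) : (a : ℂ) - b - c - 3 / 2 ≠ 0 := by
  intro h
  have h1 : ((2 * a : ℕ) : ℂ) = ((2 * b + 2 * c + 3 : ℕ) : ℂ) := by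
    push_cast; linear_combination 2 * h
  have h2 : 2 * a = 2 * b + 2 * c + 3 := by exact_mod_cast h1
  omega

/-- all moments vanish -/
lemma La_pow (R : Finset ℂ) (hR : 1 ≤ R.card) (n : ℕ) (x : ℂ) (hx : ∀ θ ∈ R, x ≠ θ)
    (γ : ℂ → ℂ) (h : ∀ i < R.card, La R n x γ ((Polynomial.X : Polynomial ℂ) ^ i) = 0) (k : ℕ) :
    La R n x γ ((Polynomial.X : Polynomial ℂ) ^ k) = 0 := by
  induction k using Nat.strong_induction_on with
  | _ k ih =>
    rcases Nat.lt_or_ge k R.card with hk | hk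
    · exact h k hk
    obtain ⟨m, rfl⟩ : ∃ m, k = m + R.card := ⟨k - R.card, by omega⟩
    have h1 := La_Qp R n x hx γ ((Polynomial.X : Polynomial ℂ) ^ m)
    have h2 : La R n x γ (Qp R n x ((Polynomial.X : Polynomial ℂ) ^ m)) = ∑ j ∈ range (m + R.card + 1),
        (Qp R n x ((Polynomial.X : Polynomial ℂ) ^ m)).coeff j * La R n x γ ((Polynomial.X : Polynomial ℂ) ^ j) := by
      have h3 := Polynomial.as_sum_range_C_mul_X_pow' (Qp R n x ((Polynomial.X : Polynomial ℂ) ^ m)) (Nat.lt_succ_of_le (Qp_natDegree R n x m))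
      have h4 : La R n x γ (Qp R n x ((Polynomial.X : Polynomial ℂ) ^ m)) = Ll R n x γ (Qp R n x ((Polynomial.X : Polynomial ℂ) ^ m)) := rfl
      rw [h4]
      conv_lhs => rw [h3]
      rw [map_sum]
      refine sum_congr rfl fun j _ => ?_
      exact La_C_mul R n x γ _ _
    rw [h1, sum_range_succ, sum_eq_zero (fun j hj => by
      rw [ih j (mem_range.mp hj), mul_zero]), zero_add, Qp_coeff R hR] at h2
    rcases mul_eq_zero.mp h2.symm with h3 | h3
    · exfalso
      have := half_ne (n * R.card) m n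
      push_cast at this
      exact this h3
    · exact h3

/-- **The zero estimate.** -/
theorem zero_estimate (R : Finset ℂ) (hR : 1 ≤ R.card) (n : ℕ) (x : ℂ) (hx : ∀ θ ∈ R, x ≠ θ)
    (γ : ℂ → ℂ) (h : ∀ i < R.card, La R n x γ ((Polynomial.X : Polynomial ℂ) ^ i) = 0) : ∀ θ ∈ R, γ θ = 0 := by
  have hall : ∀ p : Polynomial ℂ, La R n x γ p = 0 := by
    intro p
    have h4 : La R n x γ p = Ll R n x γ p := rfl
    rw [h4, p.as_sum_range_C_mul_X_pow, map_sum]
    refine sum_eq_zero fun j _ => ?_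
    have : Ll R n x γ ((Polynomial.C : ℂ →+* Polynomial ℂ) (p.coeff j) * (Polynomial.X : Polynomial ℂ) ^ j) = p.coeff j * La R n x γ ((Polynomial.X : Polynomial ℂ) ^ j) :=
      La_C_mul R n x γ _ _
    rw [this, La_pow R hR n x hx γ h, mul_zero]
  intro θ₀ hθ₀
  have h1 := hall (Mp R ^ n * Me R θ₀)
  rw [La, sum_eq_single θ₀] at h1
  · rw [map_mul (tay θ₀), map_pow (tay θ₀), tay_Mp hθ₀, mul_pow] at h1
    have h2 : (PowerSeries.X : PowerSeries ℂ) ^ n * qs R θ₀ ^ n * tay θ₀ (Me R θ₀) * Ps n (x - θ₀) *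
        (qs R θ₀)⁻¹ ^ (n + 1) = (PowerSeries.X : PowerSeries ℂ) ^ n * Ps n (x - θ₀) := by
      have e : tay θ₀ (Me R θ₀) = qs R θ₀ := rfl
      have e2 : qs R θ₀ ^ (n + 1) * (qs R θ₀)⁻¹ ^ (n + 1) = 1 := by
        rw [← mul_pow, qs_mul, one_pow]
      rw [e]
      linear_combination ((PowerSeries.X : PowerSeries ℂ) ^ n * Ps n (x - θ₀)) * e2
    rw [h2, PowerSeries.coeff_X_pow_mul', if_pos le_rfl, Nat.sub_self, coeff_Ps, cc_zero] at h1
    simp only [Rat.cast_one, pow_zero, mul_one, one_mul] at h1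
    rcases mul_eq_zero.mp h1 with h3 | h3
    · exact h3
    · exact absurd h3 (pow_ne_zero _ (sub_ne_zero.mpr (hx θ₀ hθ₀)))
  · intro θ hθ hne
    have h3 : Me R θ₀ = ((Polynomial.X : Polynomial ℂ) - (Polynomial.C : ℂ →+* Polynomial ℂ) θ) * ∏ η ∈ (R.erase θ₀).erase θ, ((Polynomial.X : Polynomial ℂ) - (Polynomial.C : ℂ →+* Polynomial ℂ) η) := by
      rw [Me, mul_prod_erase (R.erase θ₀) (fun η => (Polynomial.X : Polynomial ℂ) - (Polynomial.C : ℂ →+* Polynomial ℂ) η) (mem_erase.mpr ⟨hne, hθ⟩)]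
    have h4 : tay θ ((Polynomial.X : Polynomial ℂ) - (Polynomial.C : ℂ →+* Polynomial ℂ) θ) = (PowerSeries.X : PowerSeries ℂ) := by rw [map_sub (tay θ), tay_X, tay_C]; ring
    rw [h3, map_mul (tay θ), map_pow (tay θ), tay_Mp hθ, map_mul (tay θ), h4]
    set u := tay θ (∏ η ∈ (R.erase θ₀).erase θ, ((Polynomial.X : Polynomial ℂ) - (Polynomial.C : ℂ →+* Polynomial ℂ) η))
    have h5 : ((PowerSeries.X : PowerSeries ℂ) * qs R θ) ^ n * ((PowerSeries.X : PowerSeries ℂ) * u) * Ps n (x - θ) * (qs R θ)⁻¹ ^ (n + 1) =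
        (PowerSeries.X : PowerSeries ℂ) ^ (n + 1) * (qs R θ ^ n * u * Ps n (x - θ) * (qs R θ)⁻¹ ^ (n + 1)) := by
      rw [mul_pow]; ring
    rw [h5, PowerSeries.coeff_X_pow_mul', if_neg (by omega), mul_zero]
  · intro h
    exact absurd hθ₀ h

end Pool.Agent.U133.HP
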